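import Mathlib
import Pool.Agent.helper35.DR.DefsX

/-!
# Dade's invariant conjecture for nilpotent quotients `E / G`: definitions

`Irr`, `IrrOn`, `Defect`, `Induces`, `PosDefect`, `IsOp`, `nrm`, `IsRadical`, `Extension`, `stab`,
`altSum` are those of `helper58/DC/Defs.lean`, `ClX`, `PrX`, `CeX`, `InvX` those of
`helper35/DR/DefsX.lean`.
-/

set_option autoImplicit false

namespace Pool.Agent.NQ

open Pool.Agent.helper58.DC Pool.Agent.DI Pool.Agent.DR

section

variable {G E A : Type} [Group G] [Group E] [Group A] (X : Extension G E A)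

/-- The number of the `ψ ∈ Irr(N_G(C))` with `d(ψ) = d`, `b(ψ)^G = B` (the block of `χ`) for which
`N_E(C, ψ)` covers `A = E / G` and which have the property `Φ C ψ`. -/
noncomputable def kCP (p : ℕ) (M : Ideal (integralClosure ℤ ℂ)) (χ : G → ℂ) (d : ℤ)
    (Φ : Finset (Subgroup G) → (G → ℂ) → Prop) (C : Finset (Subgroup G)) : ℕ :=
  Nat.card {ψ : G → ℂ // ψ ∈ IrrOn (nrm C) ∧ Defect p (nrm C) ψ d ∧ Induces M ψ χ ∧
    (X.stab C ψ).map X.proj = ⊤ ∧ Φ C ψ}

/-- The alternating sum of the numbers `kCP`, over one radical chain `C` of each conjugacy class. -/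
noncomputable def altSumP (p : ℕ) (M : Ideal (integralClosure ℤ ℂ)) (χ : G → ℂ) (d : ℤ)
    (Φ : Finset (Subgroup G) → (G → ℂ) → Prop) : ℤ :=
  ∑ᶠ c : Quot (chainRel (G := G) p), (-1) ^ (c.out.1.card - 1) * (kCP X p M χ d Φ c.out.1 : ℤ)

/-- `ψ` extends to an irreducible character of `N_E(C, ψ)`. -/
def Extends (C : Finset (Subgroup G)) (ψ : G → ℂ) : Prop :=
  ∃ φ ∈ IrrOn (X.stab C ψ), ∀ g ∈ nrm C, φ (X.inc g) = ψ g

/-- Exactly one irreducible character `φ` of `N_E(C, ψ)` lies over `ψ`, that is, its restriction to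
`N_G(C)` is a multiple of `ψ`. -/
def Ramified (C : Finset (Subgroup G)) (ψ : G → ℂ) : Prop :=
  ∃! φ : E → ℂ, φ ∈ IrrOn (X.stab C ψ) ∧ ∃ e : ℕ, ∀ g ∈ nrm C, φ (X.inc g) = e * ψ g

end

/-- `A` is abelian of order `n ^ 2` and `a ^ n = 1` for all `a`; for squarefree `n` this means that `A` is
isomorphic to `C_n × C_n`. -/
def Bic (n : ℕ) (A : Type) [Group A] : Prop :=
  (∀ a b : A, a * b = b * a) ∧ Nat.card A = n ^ 2 ∧ ∀ a : A, a ^ n = 1

/-- `A` has a normal `p`-subgroup with nilpotent quotient. -/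
def PNil (p : ℕ) (A : Type) [Group A] : Prop :=
  ∃ (P : Subgroup A) (_ : P.Normal), IsPGroup p P ∧ Group.IsNilpotent (A ⧸ P)

/-- The invariant conjecture for all extensions `1 → G → E → A → 1` with `E` in the class `𝒳`, such that
`A` is an extension of a `p`-group by a nilpotent group. -/
def NilX (p : ℕ) (M : Ideal (integralClosure ℤ ℂ)) (𝒳 : (E : Type) → [Group E] → Prop) : Prop :=
  ∀ (A : Type) [Group A] [Finite A], PNil p A → InvX p M 𝒳 A

/-- For all extensions `1 → G → E → A → 1` with `E` in the class `𝒳` and `A ≅ C_n × C_n`, `n` squarefree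
and prime to `p` (`n = 1` allowed), the alternating sum of the numbers of the `ψ` such that `N_E(C, ψ)`
covers `A` and `ψ` extends to `N_E(C, ψ)` is zero. -/
def ExtX (p : ℕ) (M : Ideal (integralClosure ℤ ℂ)) (𝒳 : (E : Type) → [Group E] → Prop) : Prop :=
  ∀ n : ℕ, Squarefree n → ¬ p ∣ n → ∀ (G E A : Type) [Group G] [Group E] [Group A] [Finite G]
    [Finite E] (X : Extension G E A), 𝒳 E → Bic n A → IsOp p (⊤ : Subgroup G) ⊥ →
    ∀ χ ∈ Irr G, PosDefect p M χ → ∀ d : ℤ, altSumP X p M χ d (Extends X) = 0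

/-- The same for the `ψ` over which there is exactly one irreducible character of `N_E(C, ψ)`. -/
def RamX (p : ℕ) (M : Ideal (integralClosure ℤ ℂ)) (𝒳 : (E : Type) → [Group E] → Prop) : Prop :=
  ∀ n : ℕ, Squarefree n → ¬ p ∣ n → ∀ (G E A : Type) [Group G] [Group E] [Group A] [Finite G]
    [Finite E] (X : Extension G E A), 𝒳 E → Bic n A → IsOp p (⊤ : Subgroup G) ⊥ →
    ∀ χ ∈ Irr G, PosDefect p M χ → ∀ d : ℤ, altSumP X p M χ d (Ramified X) = 0

/-- `P` is a normal subgroup whose quotient is abelian, of order prime to `p` and generated by two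
elements. -/
def TwoQ {A : Type} [Group A] (p : ℕ) (P : Subgroup A) : Prop :=
  P.Normal ∧ (∀ x y : A, x * y * x⁻¹ * y⁻¹ ∈ P) ∧ ¬ p ∣ P.index ∧
    ∃ s t : A, ∀ x : A, ∃ i j : ℤ, s ^ i * t ^ j * x ∈ P

end Pool.Agent.NQ
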