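import Mathlib
import Pool.Agent.helper35.DR.LocF
import Pool.Agent.helper64.NQ.Defs

/-!
# Project nq (MP_baa4d7_al): Dade's invariant conjecture for nilpotent quotients, and for two generators

Theorem 1 (FIN). Let `𝒳` be closed under subgroups, homomorphic images, direct products and central
extensions by `p'`-groups. Equivalent: (a) Q1 for all `E ∈ 𝒳` with `E / G` an extension of a `p`-group by a
nilpotent group; (b) for all `E ∈ 𝒳` with `E / G = C_n × C_n`, `n` squarefree, `p ∤ n`, the alternating number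
of the pairs `(C, ψ)` such that `N_E(C, ψ)` covers `E / G` and `ψ` extends to `N_E(C, ψ)` is `0`; (c) the
same with exactly one character over `ψ`.

Theorem 2 (FTW). The ordinary conjecture implies Q1 if `E / G` has a normal `p`-subgroup with
abelian `p'`-quotient generated by two elements and if the Sylow `r`-subgroups of `E / G` are cyclic for all
primes `r ≠ p` dividing `|G|`.

Idea. `A = E / G` abelian, `p ∤ |A|`. For a pair `x = (C, ψ)` (`IsPair p M χ x`), `V = Vx X x` is the image in `A` of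
its stabiliser, `α` a cocycle associated with `ψ` (`Asc`), `ω = om α` its commutator pairing, an
alternating bicharacter on `V`, `w = wt x` its weight, `dfc p x` the defect. For subgroups `T`, `U` of `A` of
coprime orders, RLBX of DR for the subgroup `W = T ⊔ U` of `A` (`resE X W`) and its normal subgroup `U` says that
the sum of `w x * KQ (U ⊓ V x) (ω x)` over the pairs with `T ≤ V x` is `0`, where `KQ U ω` is the sum of `ω(y, z)`
over all `y, z ∈ U` (RLU). Hence the sum of `w x * JQ N (ω x)` over the pairs with `T ⊔ N ≤ V x` is `0`, where `JQ N ω` is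
the sum over the pairs `(y, z)` which generate `N` (GEN, SUM).

Rules: prove `theorem XX : XX_stmt` (or `theorem XX (hYY : YY_stmt) ... : XX_stmt` with any other rows of this
file, without circles) in `Pool/Agent/<you>/NQ/XX.lean`, importing `Pool.Agent.helper64.NQ.Spec`,
namespace `Pool.Agent.NQ`, `open Pool.Agent.helper58.DC Pool.Agent.DI Pool.Agent.DR`, auxiliary lemmas
prefixed `XX_`. All modules of DC, DI, DR are proved and may be used as hypotheses too
(`hTCL : TCL_stmt`, `hB2 : Pool.Agent.DI.B2_stmt`, `hRE : RE_stmt` ..; the proofs are `All.rTCL`, ... in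
`Pool/Agent/helper35/DR/All.lean`, `Pool/Agent/helper35/DR/AllDI.lean`, `Pool/Agent/helper58/DC/All.lean`).
No double quotes, no convert / congr!, no native_decide.
-/

set_option autoImplicit false

namespace Pool.Agent.NQ

open Pool.Agent.helper58.DC Pool.Agent.DI Pool.Agent.DR

/-! ### definitions -/

section alg

variable {Q : Type} [Group Q]

/-- The commutator pairing of a cocycle (`u_y u_z = om α y z • u_z u_y` if `y z = z y`). -/
def om (α : Q → Q → ℂˣ) (y z : Q) : ℂˣ := α y z * (α z y)⁻¹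

/-- `α` is a normalised cocycle on `V`. -/
def CocOn (V : Subgroup Q) (α : Q → Q → ℂˣ) : Prop :=
  (∀ a ∈ V, ∀ b ∈ V, ∀ c ∈ V, α a b * α (a * b) c = α a (b * c) * α b c) ∧
    ∀ a ∈ V, α 1 a = 1 ∧ α a 1 = 1

/-- `ω` is an alternating bicharacter on `V`. -/
structure IsAlt (V : Subgroup Q) (ω : Q → Q → ℂˣ) : Prop where
  mul_left : ∀ x ∈ V, ∀ y ∈ V, ∀ z ∈ V, ω (x * y) z = ω x z * ω y z
  mul_right : ∀ x ∈ V, ∀ y ∈ V, ∀ z ∈ V, ω x (y * z) = ω x y * ω x z
  self : ∀ x ∈ V, ω x x = 1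

/-- The radical of `ω` on `N`. -/
def Rd (N : Subgroup Q) (ω : Q → Q → ℂˣ) : Set Q := {z | z ∈ N ∧ ∀ y ∈ N, ω y z = 1}

/-- The sum of `ω` over all pairs of elements of `U`. -/
noncomputable def KQ (U : Subgroup Q) (ω : Q → Q → ℂˣ) : ℂ :=
  ∑ᶠ x ∈ {x : Q × Q | x.1 ∈ U ∧ x.2 ∈ U}, ((ω x.1 x.2 : ℂˣ) : ℂ)

/-- The sum of `ω` over the pairs which generate `N`. -/
noncomputable def JQ (N : Subgroup Q) (ω : Q → Q → ℂˣ) : ℂ :=
  ∑ᶠ x ∈ {x : Q × Q | Subgroup.closure {x.1, x.2} = N}, ((ω x.1 x.2 : ℂˣ) : ℂ)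

end alg

/-- The elements with `a ^ m = 1` of a commutative group. -/
def tor (Q : Type) [Group Q] (hc : ∀ a b : Q, a * b = b * a) (m : ℕ) : Subgroup Q where
  carrier := {a | a ^ m = 1}
  mul_mem' := by
    intro a b ha hb
    have h : (a * b) ^ m = a ^ m * b ^ m := (show Commute a b from hc a b).mul_pow m
    show (a * b) ^ m = 1
    rw [h, show a ^ m = 1 from ha, show b ^ m = 1 from hb, mul_one]
  one_mem' := one_pow m
  inv_mem' := by
    intro a ha
    show a⁻¹ ^ m = 1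
    rw [inv_pow, show a ^ m = 1 from ha, inv_one]

/-- The weight of a pair. -/
noncomputable def wt {G : Type} [Group G] (x : Finset (Subgroup G) × (G → ℂ)) : ℤ :=
  (-1) ^ (x.1.card + 1) * (Nat.card (nrm x.1) : ℤ)

/-- The property used in the induction for Theorem 2 (`ρ` is a set of primes). -/
def Tw (p : ℕ) (ρ : ℕ → Prop) (A : Type) [Group A] : Prop :=
  Finite A ∧ ∃ P : Subgroup A, IsPGroup p P ∧ TwoQ p P ∧
    ∀ r : ℕ, r.Prime → r ≠ p → ¬ ρ r → ∀ R : Sylow r A, IsCyclic R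

/-! ### part A: pairings on finite abelian groups (pure algebra, independent of the rest) -/

/-- **OMA** (short). The commutator pairing is an alternating bicharacter. Proof: from
`α(x,y) α(xy,z) = α(x,yz) α(y,z)`, `α(z,x) α(zx,y) = α(z,xy) α(x,y)` and
`α(x,z) α(xz,y) = α(x,zy) α(z,y)` (and `xz = zx`, `yz = zy`) one gets
`α(xy,z) α(z,x) α(z,y) = α(x,z) α(y,z) α(z,xy)`. `mul_right` from `mul_left` and `om α x y = (om α y x)⁻¹`. -/
def OMA_stmt : Prop :=
  ∀ (Q : Type) [Group Q] (V : Subgroup Q), (∀ x ∈ V, ∀ y ∈ V, x * y = y * x) →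
    ∀ α : Q → Q → ℂˣ, CocOn V α → IsAlt V (om α)

/-- **KQR** (short to medium). Proof: for fixed `z ∈ N` the function `y ↦ ω y z` is a homomorphism on `N`, so
its sum over `N` is `|N|` if it is trivial (`z ∈ Rd N ω`) and `0` otherwise. -/
def KQR_stmt : Prop :=
  ∀ (Q : Type) [Group Q] [Finite Q] (N : Subgroup Q) (ω : Q → Q → ℂˣ), IsAlt N ω →
    KQ N ω = (Nat.card N : ℂ) * (Nat.card (Rd N ω) : ℂ)

open Classical in
/-- **GEN** (medium). Proof: let `f(y, z)` be the sum of `w i * ω i y z` over the `i` with `y, z ∈ V i`. For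
`U ≤ N` the hypothesis says that the sum of `f` over `U × U` is `0`. The set `U × U` is the disjoint union over
the subgroups `U' ≤ U` of the sets of pairs with closure `U'`; by induction on `|U|` the sum of `f` over the
pairs with closure `U` is `0` for all `U ≤ N`. For `U = N`: if the closure of `{y, z}` is `N` then `y, z ∈ V i` iff
`N ≤ V i`. -/
def GEN_stmt : Prop :=
  ∀ (Q : Type) [Group Q] [Finite Q] (ι : Type) [Fintype ι] (w : ι → ℂ) (V : ι → Subgroup Q)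
    (ω : ι → Q → Q → ℂˣ) (N : Subgroup Q),
    (∀ U : Subgroup Q, U ≤ N → ∑ i, w i * KQ (U ⊓ V i) (ω i) = 0) →
    ∑ i, w i * (if N ≤ V i then JQ N (ω i) else 0) = 0

/-- **JPR** (medium). Coprime orders. Proof: the map `((y₁, z₁), (y₂, z₂)) ↦ (y₁ y₂, z₁ z₂)` is a bijection
from `N₁² × N₂²` to `(N₁ ⊔ N₂)²`; `y₁` and `y₂` are powers of `y₁ y₂`, so the closure of `{y₁ y₂, z₁ z₂}` is the
join of the closures `U₁` of `{y₁, z₁}` and `U₂` of `{y₂, z₂}`, and it is `N₁ ⊔ N₂` iff `U₁ = N₁` and `U₂ = N₂`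
(orders). `ω(y₁, z₂) = 1` because its `|N₁|`-th and `|N₂|`-th powers are `1`, so
`ω(y₁ y₂, z₁ z₂) = ω(y₁, z₁) ω(y₂, z₂)`. -/
def JPR_stmt : Prop :=
  ∀ (Q : Type) [Group Q] [Finite Q], (∀ x y : Q, x * y = y * x) → ∀ N₁ N₂ : Subgroup Q,
    (Nat.card N₁).Coprime (Nat.card N₂) → ∀ ω : Q → Q → ℂˣ, IsAlt (N₁ ⊔ N₂) ω →
    JQ (N₁ ⊔ N₂) ω = JQ N₁ ω * JQ N₂ ω

open Classical in
/-- **JRR** (medium; from KQR). `N ≅ C_r × C_r`. Proof: let `g = (r² - 1)(r² - r)` be the number of the pairs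
which generate `N` (`y ≠ 1` and `z` not a power of `y`: for `y ≠ 1` the group `⟨y⟩` has order `r`, and the closure
has order `r` or `r²`). If `(y, z)` does not generate `N`, the closure has order `1` or `r`, is cyclic, and
`ω(y, z) = 1`. So `JQ N ω = KQ N ω - (r⁴ - g)`. If `ω` is trivial on `N` then `KQ N ω = r⁴`. If not, `Rd N ω` is a
subgroup, not `N`, and not of order `r`: if `z₀ ∉ Rd` and `|Rd| = r` every element of `N` is `z₀ ^ i * u` with
`u ∈ Rd` and `ω` would be trivial; so `|Rd| = 1`, `KQ N ω = r²`, `JQ N ω = r² - r⁴ + g = -(r³ - r)`. -/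
def JRR_stmt : Prop :=
  ∀ (Q : Type) [Group Q] [Finite Q], (∀ x y : Q, x * y = y * x) → ∀ r : ℕ, r.Prime →
    ∀ N : Subgroup Q, Nat.card N = r ^ 2 → (∀ x ∈ N, x ^ r = 1) → ∀ ω : Q → Q → ℂˣ, IsAlt N ω →
    JQ N ω = if (∀ y ∈ N, ∀ z ∈ N, ω y z = 1) then ((r : ℂ) ^ 2 - 1) * ((r : ℂ) ^ 2 - r)
      else -((r : ℂ) ^ 3 - r)

/-- **TRF** (medium). Structure of `Q ≅ C_n × C_n`. Proof: for coprime `m`, `m'` and `u m + v m' = 1`
(`u, v ∈ ℤ`) every `x` with `x ^ (m m') = 1` is `(x ^ m') ^ v * (x ^ m) ^ u`, which gives the third item (`m m' ∣ n`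
squarefree implies coprime). Orders: every prime dividing `|tor m|` divides `m` (Cauchy), so for `m ∣ n`
`|tor m|` and `|tor (n / m)|` are coprime, with product `|Q| = n²` (their join is `⊤`, their intersection
`⊥`), and `|tor m|` is prime to `n / m`, so it divides `m²`; also `|tor (n / m)|` divides `(n / m)²`. -/
def TRF_stmt : Prop :=
  ∀ (Q : Type) [Group Q] [Finite Q] (hc : ∀ a b : Q, a * b = b * a) (n : ℕ), Squarefree n →
    Bic n Q → tor Q hc n = ⊤ ∧ (∀ m : ℕ, m ∣ n → Nat.card (tor Q hc m) = m ^ 2) ∧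
    ∀ m m' : ℕ, m * m' ∣ n → tor Q hc m ⊔ tor Q hc m' = tor Q hc (m * m')

/-- **JTP** (short to medium; from TRF, JPR). Induction on `S` (the orders of `tor (∏ S)` and `tor r`,
`r ∉ S`, are coprime). `tor 1 = ⊥`, `JQ ⊥ ω = 1` (the only pair is `(1, 1)`, `ω 1 1 = 1`). -/
def JTP_stmt : Prop :=
  ∀ (Q : Type) [Group Q] [Finite Q] (hc : ∀ a b : Q, a * b = b * a) (n : ℕ), Squarefree n →
    Bic n Q → ∀ ω : Q → Q → ℂˣ, IsAlt ⊤ ω → ∀ S : Finset ℕ, S ⊆ n.primeFactors →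
    JQ (tor Q hc (∏ r ∈ S, r)) ω = ∏ r ∈ S, JQ (tor Q hc r) ω

/-- **ATR** (medium; from TRF). Proof. If `ω` is trivial on every `tor r`: `ω(y, z)` has order dividing `n`; if it
is not `1`, some prime `r ∣ n` divides its order, put `m = n / r`: `ω(y ^ m, z ^ m) = ω(y, z) ^ (m²) ≠ 1`
since `r ∤ m²`, but `y ^ m, z ^ m ∈ tor r`. Second item: if `z ≠ 1` is in the radical then a power `z'` of `z`
has prime order `r`, `z' ∈ tor r` is in the radical; `tor r` has order `r²` (TRF), choose `w ∈ tor r`, not a power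
of `z'`; every element of `tor r` is `z' ^ i * w ^ j`, so `ω` is trivial on `tor r`. Conversely if `ω` is trivial on
`tor r` take `z ∈ tor r`, `z ≠ 1`; for all `y`, `ω(y, z) ^ r = ω(y, z ^ r) = 1`, and with `m = n / r`,
`ω(y, z) ^ (m²) = ω(y ^ m, z ^ m) = 1` as `y ^ m, z ^ m ∈ tor r`; so `ω(y, z) = 1`. -/
def ATR_stmt : Prop :=
  ∀ (Q : Type) [Group Q] [Finite Q] (hc : ∀ a b : Q, a * b = b * a) (n : ℕ), Squarefree n →
    Bic n Q → ∀ ω : Q → Q → ℂˣ, IsAlt ⊤ ω →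
    ((∀ y z, ω y z = 1) ↔
      ∀ r ∈ n.primeFactors, ∀ y ∈ tor Q hc r, ∀ z ∈ tor Q hc r, ω y z = 1) ∧
    ((∀ z, (∀ y, ω y z = 1) → z = 1) ↔
      ∀ r ∈ n.primeFactors, ¬ ∀ y ∈ tor Q hc r, ∀ z ∈ tor Q hc r, ω y z = 1)

open Classical in
/-- **TOT** (medium; from JTP, JRR, TRF, ATR). Proof: `Finset.prod_add` for
`∏ r ∈ n.primeFactors, (JQ (tor r) ω + c r)` and JTP. With `c r = r³ - r` the factor is `r⁴ - r²` if `ω` is trivial on
`tor r` and `0` otherwise; with `c r = -(r² - 1)(r² - r)` it is `0` if `ω` is trivial on `tor r` and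
`-(r⁴ - r²)` otherwise (JRR). ATR. -/
def TOT_stmt : Prop :=
  ∀ (Q : Type) [Group Q] [Finite Q] (hc : ∀ a b : Q, a * b = b * a) (n : ℕ), Squarefree n →
    Bic n Q → ∀ ω : Q → Q → ℂˣ, IsAlt ⊤ ω →
    (∑ S ∈ n.primeFactors.powerset, JQ (tor Q hc (∏ r ∈ S, r)) ω *
        ∏ r ∈ n.primeFactors \ S, ((r : ℂ) ^ 3 - r) =
      if (∀ y z, ω y z = 1) then ∏ r ∈ n.primeFactors, ((r : ℂ) ^ 4 - (r : ℂ) ^ 2) else 0) ∧
    (∑ S ∈ n.primeFactors.powerset, JQ (tor Q hc (∏ r ∈ S, r)) ω *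
        ∏ r ∈ n.primeFactors \ S, (-(((r : ℂ) ^ 2 - 1) * ((r : ℂ) ^ 2 - r))) =
      if (∀ z, (∀ y, ω y z = 1) → z = 1) then
        ∏ r ∈ n.primeFactors, (-((r : ℂ) ^ 4 - (r : ℂ) ^ 2)) else 0)

/-! ### part B: projective characters of abelian groups -/

/-- **GN1** (medium; uses KSC of DR). Structure of an irreducible projective character of an abelian
group `N`. Proof: let `S` be as in `PIrr`. For `y, z ∈ N` one has `S y * S z = om β y z • (S z * S y)`. If
`z ∉ Rd` choose `y` with `om β y z ≠ 1`; the trace of `S y * S z * (S y)⁻¹ = om β y z • S z` gives `σ z = 0`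
(`(S y)⁻¹ = (β y y⁻¹)⁻¹ • S y⁻¹`). If `z ∈ Rd`, `S z` commutes with all `S y`, so it is a scalar `c z` by KSC (the
norm condition of `PIrr` is the hypothesis of KSC), not `0` since `S z` is invertible; `σ z = k * c z`
and `c z * c z' = β z z' * c (z z')`. The norm: `∑_{z ∈ Rd} k c(z) k c(z⁻¹) β(z, z⁻¹)⁻¹ = k² |Rd|`. (Then
`k ≠ 0`; note that `finrank = k`, `σ 1 = k`.) -/
def GN1_stmt : Prop :=
  ∀ (Q : Type) [Group Q] [Finite Q] (N : Subgroup Q), (∀ x ∈ N, ∀ y ∈ N, x * y = y * x) →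
    ∀ β ∈ Coc Q, ∀ (σ : Q → ℂ) (k : ℕ), PIrr N β σ k →
    (∀ z ∈ N, z ∉ Rd N (om β) → σ z = 0) ∧
    (∃ c : Q → ℂˣ, (∀ z ∈ Rd N (om β), σ z = k * c z) ∧
      ∀ z ∈ Rd N (om β), ∀ z' ∈ Rd N (om β), c z * c z' = β z z' * c (z * z')) ∧
    k ^ 2 * Nat.card (Rd N (om β)) = Nat.card N

/-- **GNC** (medium to long; from GN1, OMA). The number of irreducible projective characters of `N` is
`|Rd|`. Proof: let `σ₀`, `k` be given, `c₀` from GN1. Every `PIrr N β σ k'` has `k' = k` (GN1, `k² |Rd| = |N|`), and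
`σ` is determined by `c` on `Rd` (a subgroup by OMA), a function with `c z c z' = β z z' c (z z')`. The
`c / c₀` are the homomorphisms `Rd → ℂˣ`, there are `|Rd|` of them
(`CommGroup.card_monoidHom_of_hasEnoughRootsOfUnity`), and every homomorphism `Rd → ℂˣ` extends to a
homomorphism `λ : N → ℂˣ` (`MonoidHom.domRestrict_surjective` in
`Mathlib/GroupTheory/FiniteAbelian/Duality.lean`), and `λ σ₀` is in `PIrr N β _ k` (`S' n = λ n • S n`). Invariance:
`tw β q n = om β q n` as `Q` is commutative, so `σ n = tw β q n * σ (q n q⁻¹)` holds: both sides vanish for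
`n ∉ Rd`, and `om β q n = 1` for `n ∈ Rd`. -/
def GNC_stmt : Prop :=
  ∀ (Q : Type) [Group Q] [Finite Q], (∀ x y : Q, x * y = y * x) → ∀ N : Subgroup Q,
    ∀ β ∈ Coc Q, (∃ (σ : Q → ℂ) (k : ℕ), PIrr N β σ k) →
    (∀ z ∈ Rd N (om β), ∀ q : Q, om β q z = 1) →
    (∀ (σ : Q → ℂ) (k : ℕ), PIrr N β σ k → PInv N β σ) ∧
    GN N β (fun _ => True) = Nat.card (Rd N (om β))

open Classical in
/-- **GNA** (short; from GNC, GN1, KQR, OMA). `p ∤ |N|`: by GN1 `k² ∣ |N|`, so `v_p(k) = 0` for all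
`PIrr N β σ k`; so the number is `0` for `j ≠ 0`, and for `j = 0` it is `|Rd|`; KQR. -/
def GNA_stmt : Prop :=
  ∀ (Q : Type) [Group Q] [Finite Q], (∀ x y : Q, x * y = y * x) → ∀ N : Subgroup Q,
    ∀ β ∈ Coc Q, (∃ (σ : Q → ℂ) (k : ℕ), PIrr N β σ k) →
    (∀ z ∈ Rd N (om β), ∀ q : Q, om β q z = 1) → ∀ (p : ℕ) [Fact p.Prime], ¬ p ∣ Nat.card N →
    ∀ j : ℤ, (Nat.card N : ℂ) * (GN N β (fun k => (padicValNat p k : ℤ) = j) : ℂ) =
      if j = 0 then KQ N (om β) else 0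

/-! ### part C: characters and their cocycles -/

/-- **CN0** (short). Proof: let `T` be as in `AscT`. `T s` is invertible for `s ∈ S` (`T s * T s⁻¹` is a nonzero
scalar times `T 1 = 1`) and `V ≠ 0` because `ψ 1 ≠ 0` (`ψ 1 = trace (T 1)`). The cocycle identity:
associativity of `T s * T s' * T s''`. `α(1, a) = 1`: `T 1 * T s = α(1, a) • T s`. -/
def CN0_stmt : Prop :=
  ∀ (Γ Q : Type) [Group Γ] [Finite Γ] [Group Q] [Finite Q] (q : Γ →* Q) (S : Subgroup Γ),
    ∀ ψ ∈ IrrOn (S ⊓ q.ker), ∀ α : Q → Q → ℂˣ, Asc S q ψ α → CocOn (S.map q) α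

/-- **ASE** (medium; uses TEX of DR). Existence of an associated cocycle, `S.map q` arbitrary. Proof: TEX
for the group `S`, the surjective homomorphism `q.subgroupMap S : S →* S.map q` and its subgroup `⊤`, the
character `ψ` restricted to `S` (transport of `IrrOn`: B13 of di for `S.subtype`); extend `α` by `1` to `Q` and `T`
by `1` to `Γ`. -/
def ASE_stmt : Prop :=
  ∀ (Γ Q : Type) [Group Γ] [Finite Γ] [Group Q] [Finite Q] (q : Γ →* Q) (S : Subgroup Γ),
    ∀ ψ ∈ IrrOn (S ⊓ q.ker), (∀ s ∈ S, funMap (MulAut.conj s) ψ = ψ) →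
    ∃ α : Q → Q → ℂˣ, Asc S q ψ α

/-- **PEX** (medium; uses CRE, CFA, TBW of DR). Existence of projective characters. Proof: let
`L = S ⊓ N.comap q`, `K = S ⊓ q.ker`. The function `indf L K ψ` is not `0` (value at `1`), so by CRE some
`φ ∈ IrrOn L` has multiplicity `m φ ψ ≠ 0` in it, and `ψ` has multiplicity `m φ ψ` in the restriction of `φ`
to `K`. By CFA (`L ≤ nz K`) `φ` is over some `ψ'`, and as `ψ` is `S`-invariant, `φ x = e * ψ x` on `K` (CUQ; or
directly from CRE and CFA). TBW. -/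
def PEX_stmt : Prop :=
  ∀ (Γ Q : Type) [Group Γ] [Finite Γ] [Group Q] [Finite Q] (q : Γ →* Q) (S : Subgroup Γ),
    S.map q = ⊤ → ∀ ψ ∈ IrrOn (S ⊓ q.ker), (∀ s ∈ S, funMap (MulAut.conj s) ψ = ψ) →
    ∀ α ∈ Coc Q, Asc S q ψ α → ∀ N : Subgroup Q, ∃ (σ : Q → ℂ) (k : ℕ), PIrr N α⁻¹ σ k

/-- **INR** (short to medium; uses B13 of di). The number `inn` inside a subgroup `Γ₀`. (Bijection
`φ ↦ (x ↦ φ x)` from the functions on `Γ` which vanish outside `Γ₀` to the functions on `Γ₀`; inverse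
`ext0 Γ₀.subtype`.) -/
def INR_stmt : Prop :=
  ∀ (Γ : Type) [Group Γ] [Finite Γ] (p : ℕ) (Γ₀ L S K : Subgroup Γ), L ≤ Γ₀ → S ≤ Γ₀ → K ≤ Γ₀ →
    ∀ (ψ : Γ → ℂ) (D : ℤ), inn p (L.subgroupOf Γ₀) (S.subgroupOf Γ₀) (K.subgroupOf Γ₀)
      (fun x : Γ₀ => ψ x) D = inn p L S K ψ D

open Classical in
/-- **CNA** (medium to long; from CN0, PEX, INR, GNA, uses TIN of DR and B13 of di). The number of invariant
characters over `ψ` if `V = S.map q` is abelian. Proof: apply TIN to the group `S`, the surjection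
`q' = q.subgroupMap S : S →* V`, its subgroup `⊤`, the character `ψ' = ψ` restricted to `S`, the cocycle
`α'(a, b) = α(a, b)` of `V` (CN0) and `N' = N.subgroupOf V` (`(⊤ ⊓ N'.comap q') = (S ⊓ N.comap q).subgroupOf S`, and
so on; INR with `Γ₀ = S`). The number is `GN N' α'⁻¹ (v_p(k) = d - D)` (`p ∤ |N'|`). GNA for `β = α'⁻¹`
(PEX): `om α'⁻¹ = (om α')⁻¹`, `Rd` is the same, and `KQ N' (om α'⁻¹) = KQ N' (om α')` by exchanging `y` and `z`;
`KQ N' (om α') = KQ (N ⊓ V) (om α)`. -/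
def CNA_stmt : Prop :=
  ∀ (Γ Q : Type) [Group Γ] [Finite Γ] [Group Q] [Finite Q] (q : Γ →* Q) (S : Subgroup Γ),
    ∀ ψ ∈ IrrOn (S ⊓ q.ker), (∀ s ∈ S, funMap (MulAut.conj s) ψ = ψ) →
    ∀ α : Q → Q → ℂˣ, Asc S q ψ α → (∀ x ∈ S.map q, ∀ y ∈ S.map q, x * y = y * x) →
    ∀ N : Subgroup Q, N.Normal → ∀ (p : ℕ) [Fact p.Prime],
    ¬ p ∣ Nat.card (N ⊓ S.map q : Subgroup Q) →
    (∀ z ∈ Rd (N ⊓ S.map q) (om α), ∀ v ∈ S.map q, om α v z = 1) →
    ∀ d D : ℤ, Defect p (S ⊓ q.ker) ψ d →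
    (Nat.card (N ⊓ S.map q : Subgroup Q) : ℂ) *
        (inn p (S ⊓ N.comap q) S (S ⊓ q.ker) ψ D : ℂ) =
      if d = D then KQ (N ⊓ S.map q) (om α) else 0

/-- **EXR** (medium; from GNC, GN1, PEX, OMA, uses TCL of DR). Proof: TCL with `N = ⊤`
(`S ⊓ (⊤ : Subgroup Q).comap q = S`; every `φ ∈ IrrOn S` is invariant under `S`, B2 of di). With `P = True` the
number of the `φ ∈ IrrOn S` over `ψ` is `GN ⊤ α⁻¹ (True) = |Rd ⊤ (om α)|` (GNC, PEX), which is `1` iff `Rd` is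
trivial. With `P e : e = 1` (then `φ = ψ` on `S ⊓ q.ker`) such a `φ` exists iff some `PIrr ⊤ α⁻¹ σ 1` exists
(it is invariant by GNC), iff `|Rd| = |Q|` (GN1: `k² |Rd| = |Q|` for all of them, and one exists by
PEX), iff `om α` is trivial. -/
def EXR_stmt : Prop :=
  ∀ (Γ Q : Type) [Group Γ] [Finite Γ] [Group Q] [Finite Q] (q : Γ →* Q) (S : Subgroup Γ),
    S.map q = ⊤ → (∀ x y : Q, x * y = y * x) → ∀ ψ ∈ IrrOn (S ⊓ q.ker),
    (∀ s ∈ S, funMap (MulAut.conj s) ψ = ψ) → ∀ α ∈ Coc Q, Asc S q ψ α →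
    ((∃ φ ∈ IrrOn S, ∀ x ∈ S ⊓ q.ker, φ x = ψ x) ↔ ∀ y z, om α y z = 1) ∧
    ((∃! φ : Γ → ℂ, φ ∈ IrrOn S ∧ ∃ e : ℕ, ∀ x ∈ S ⊓ q.ker, φ x = e * ψ x) ↔
      ∀ z, (∀ y, om α y z = 1) → z = 1)

/-- **OMC** (medium; from CN0, OMA). Proof: `ω = om α` is an alternating bicharacter on `V = S.map q`.
Suppose `ω(y, z) ≠ 1`; a prime `r` divides its order (which divides `|Q|`). Let `|Q| = r ^ a * m`, `r ∤ m`;
`y' = y ^ m`, `z' = z ^ m` are `r`-elements with `ω(y', z') = ω(y, z) ^ (m²) ≠ 1`. If the Sylow `r`-subgroups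
are cyclic, `y'`, `z'` are in a cyclic subgroup of `V` (the closure of `{y', z'}` is an `r`-group) and
`ω(g ^ i, g ^ j) = 1`, a contradiction. If `r ∤ |K|`, `K = S ⊓ q.ker`: let `s, s' ∈ S` be preimages. Then
`s s' = h s' s` with `h ∈ K`, and `T s * T s' = α(y', z') • T (s s')`, `T (s s') = T h * T (s' s)` (normalised
cocycle), `T s' * T s = α(z', y') • T (s' s)`; so `T s * T s' = ω(y', z') • (T h * T s' * T s)`. Determinants:
`1 = ω(y', z') ^ k * det (T h)`, `k = dim = ψ 1`, and `det (T h) ^ |K| = 1` (`T` is multiplicative on `K`). So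
`ω(y', z') ^ (k |K|) = 1`, `k ∣ |K|` (B2 of di), and `ω(y', z')` has order a power of `r`; so it is `1`. -/
def OMC_stmt : Prop :=
  ∀ (Γ Q : Type) [Group Γ] [Finite Γ] [Group Q] [Finite Q] (q : Γ →* Q) (S : Subgroup Γ),
    (∀ x y : Q, x * y = y * x) → ∀ ψ ∈ IrrOn (S ⊓ q.ker), ∀ α : Q → Q → ℂˣ, Asc S q ψ α →
    (∀ r : ℕ, r.Prime → r ∣ Nat.card Q →
      ¬ r ∣ Nat.card (S ⊓ q.ker : Subgroup Γ) ∨ ∀ R : Sylow r Q, IsCyclic R) →
    ∀ y ∈ S.map q, ∀ z ∈ S.map q, om α y z = 1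

/-! ### part D: the relation for subgroups of `A` -/

/-- **RES** (medium; from INR, uses RST of DR, B13 of di). `relT` for the restricted extension, in the
group `E`. (`(resE X W).stab C ψ = (X.stab C ψ).subgroupOf (W.comap X.proj)`; `(resE X W).inc g` is `X.inc g`, so
`ext0 (resE X W).inc ψ` is `ext0 X.inc ψ` restricted to `W.comap X.proj`; the kernel of `(resE X W).proj` is
the kernel of `X.proj`. INR with `Γ₀ = W.comap X.proj`.) -/
def RES_stmt : Prop :=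
  ∀ (G E A : Type) [Group G] [Group E] [Group A] [Finite G] [Finite E] (X : Extension G E A)
    (p : ℕ) (C : Finset (Subgroup G)) (ψ : G → ℂ) (W U : Subgroup A), U ≤ W → ∀ D : ℤ,
    relT (resE X W) p (U.subgroupOf W) C ψ D =
      (Nat.card (X.stab C ψ ⊓ U.comap X.proj : Subgroup E) : ℤ) *
        inn p (X.stab C ψ ⊓ U.comap X.proj) (X.stab C ψ ⊓ W.comap X.proj)
          (X.stab C ψ ⊓ X.proj.ker) (ext0 X.inc ψ) D

/-- **RLU** (medium to long; from RES, CNA, CN0, OMA, uses RLBX, RST, ECD of DR, PAL_dfc). The relation. Proof: let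
`W = T ⊔ U`, `U' = U.subgroupOf W`. Then `W ⧸ U' ≃* T` (`T ⊓ U = ⊥`), so `InvX p M 𝒳 (W ⧸ U')`; `Stable (resE X W) M χ`;
RLBX for `resE X W`, `U'`. Let `V = (X.stab C ψ).map X.proj`. The image in `W` of the stabiliser is
`(V ⊓ W).subgroupOf W`, and its join with `U'` is `⊤` iff `(V ⊓ W) ⊔ U = W` iff `T ≤ V`: for `t ∈ T`, `t = v u`;
with `k ≡ 1` modulo `|T|`, `k ≡ 0` modulo `|U|`, `t = t ^ k = v ^ k u ^ k = v ^ k ∈ V`. By RES and CNA (for
`Γ = E`, `q = X.proj`, `S = X.stab C ψ ⊓ W.comap X.proj`, `N = U`: `S.map q = V ⊓ W`, `S ⊓ U.comap q =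
X.stab C ψ ⊓ U.comap q`, `S ⊓ q.ker = X.stab C ψ ⊓ q.ker`; `Asc` restricts to `S`) the contribution of `(C, ψ)` is
`|nrm C| * KQ (U ⊓ V) (om α)` if `dfc = D`, and `0` otherwise: `|X.stab C ψ ⊓ U.comap q| = |nrm C| |U ⊓ V|` (ECD,
RST). The condition of CNA: `z ∈ U ⊓ V` in the radical of `U ⊓ V`, `v ∈ V ⊓ W`; `V ⊓ W = (V ⊓ T) ⊔ (V ⊓ U)` by
coprimality, `om α t z = 1` for `t ∈ T` since its `|T|`-th and `|U|`-th powers are `1`. -/
def RLU_stmt : Prop :=
  ∀ (G E A : Type) [Group G] [Group E] [Group A] [Finite G] [Finite E] [Finite A]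
    (X : Extension G E A) (p : ℕ) [Fact p.Prime] (M : Ideal (integralClosure ℤ ℂ)), M.IsMaximal →
    (p : integralClosure ℤ ℂ) ∈ M → IsOp p (⊤ : Subgroup G) ⊥ → ∀ χ ∈ Irr G, Stable X M χ →
    (∀ a b : A, a * b = b * a) → ¬ p ∣ Nat.card A →
    ∀ 𝒳 : (E : Type) → [Group E] → Prop, ClX 𝒳 → 𝒳 E → ∀ T U : Subgroup A,
    (Nat.card T).Coprime (Nat.card U) → InvX p M 𝒳 T → ∀ D : ℤ, 1 ≤ D →
    ∀ α : Finset (Subgroup G) × (G → ℂ) → A → A → ℂˣ,
    (∀ x, IsPair p M χ x → Asc (X.stab x.1 x.2) X.proj (ext0 X.inc x.2) (α x)) →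
    ∑ᶠ x ∈ {x : Finset (Subgroup G) × (G → ℂ) | IsPair p M χ x ∧ dfc p x = D ∧ T ≤ Vx X x},
      (wt x : ℂ) * KQ (U ⊓ Vx X x) (om (α x)) = 0

/-- **SUM** (short to medium; from RLU, GEN). Apply GEN to the finite set of the pairs with `dfc p x = D`,
`T ≤ Vx X x` (finiteness: `IF_stmt` or B2 of di, see PEQX in `helper35/DR/LocP.lean`), `w = wt`,
`V = Vx X`, `ω x = om (α x)`. -/
def SUM_stmt : Prop :=
  ∀ (G E A : Type) [Group G] [Group E] [Group A] [Finite G] [Finite E] [Finite A]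
    (X : Extension G E A) (p : ℕ) [Fact p.Prime] (M : Ideal (integralClosure ℤ ℂ)), M.IsMaximal →
    (p : integralClosure ℤ ℂ) ∈ M → IsOp p (⊤ : Subgroup G) ⊥ → ∀ χ ∈ Irr G, Stable X M χ →
    (∀ a b : A, a * b = b * a) → ¬ p ∣ Nat.card A →
    ∀ 𝒳 : (E : Type) → [Group E] → Prop, ClX 𝒳 → 𝒳 E → ∀ T N : Subgroup A,
    (Nat.card T).Coprime (Nat.card N) → InvX p M 𝒳 T → ∀ D : ℤ, 1 ≤ D →
    ∀ α : Finset (Subgroup G) × (G → ℂ) → A → A → ℂˣ,
    (∀ x, IsPair p M χ x → Asc (X.stab x.1 x.2) X.proj (ext0 X.inc x.2) (α x)) →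
    ∑ᶠ x ∈ {x : Finset (Subgroup G) × (G → ℂ) | IsPair p M χ x ∧ dfc p x = D ∧
      T ⊔ N ≤ Vx X x}, (wt x : ℂ) * JQ N (om (α x)) = 0

/-! ### part E: sums over pairs with a property -/

/-- **EIV** (medium). Invariance under conjugation by `g ∈ G`. (`e ↦ inc g * e * (inc g)⁻¹` maps
`X.stab C ψ` onto the stabiliser of the conjugate pair: see `D1_stab` in `Pool/Agent/helper65/DI/D1.lean`;
`nrm (chainMap (conj g) C) = (nrm C).map (conj g)`, NM of dq; `φ ↦ funMap (conj (inc g)) φ`, IF of dq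
for `IrrOn`. For `Ramified` use also the inverse `g⁻¹`.) -/
def EIV_stmt : Prop :=
  ∀ (G E A : Type) [Group G] [Group E] [Group A] [Finite G] [Finite E] (X : Extension G E A)
    (C : Finset (Subgroup G)) (ψ : G → ℂ) (g : G),
    (Extends X C ψ →
      Extends X (chainMap (MulAut.conj g) C) (funMap (MulAut.conj g) ψ)) ∧
    (Ramified X C ψ →
      Ramified X (chainMap (MulAut.conj g) C) (funMap (MulAut.conj g) ψ))

/-- **PAP** (medium). `altSumP` as a sum over pairs. (Copy `Pool/Agent/helper65/DI/D1.lean` for `kCP`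
in place of `kC`, using the hypothesis on `Φ` for `g` and `g⁻¹`, and then
`Pool/Agent/helper33/DR/PAL.lean`.) -/
def PAP_stmt : Prop :=
  ∀ (G E A : Type) [Group G] [Group E] [Group A] [Finite G] (X : Extension G E A) (p : ℕ)
    (M : Ideal (integralClosure ℤ ℂ)), ∀ χ ∈ Irr G, ∀ (d : ℤ)
    (Φ : Finset (Subgroup G) → (G → ℂ) → Prop),
    (∀ (C : Finset (Subgroup G)) (ψ : G → ℂ) (g : G), Φ C ψ →
      Φ (chainMap (MulAut.conj g) C) (funMap (MulAut.conj g) ψ)) →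
    (Nat.card G : ℤ) * altSumP X p M χ d Φ =
      ∑ᶠ x ∈ {x : Finset (Subgroup G) × (G → ℂ) | IsPair p M χ x ∧ dfc p x = d ∧
        Vx X x = ⊤ ∧ Φ x.1 x.2}, wt x

/-- **ZER** (short). All numbers `kCP` are `0`: for `d ≤ 0` by `D6_empty` of
`Pool/Agent/helper24/DI/D6.lean`, for a block which is not stable by the proof of ST of dq
(`Pool/Agent/helper55/DC/ST.lean`). -/
def ZER_stmt : Prop :=
  ∀ (G E A : Type) [Group G] [Group E] [Group A] [Finite G] [Finite E] (X : Extension G E A)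
    (p : ℕ) [Fact p.Prime] (M : Ideal (integralClosure ℤ ℂ)), M.IsMaximal →
    (p : integralClosure ℤ ℂ) ∈ M → ∀ χ ∈ Irr G, PosDefect p M χ → ∀ d : ℤ,
    (d ≤ 0 ∨ ¬ Stable X M χ) → ∀ Φ : Finset (Subgroup G) → (G → ℂ) → Prop,
    altSumP X p M χ d Φ = 0

/-- **KEY** (long; from SUM, ASE, CN0, OMA, TRF, TOT, EXR, EIV, PAP, PAL and RST of DR). Proof: choose the cocycles
`α x` (ASE; RST gives `X.stab C ψ ⊓ X.proj.ker = (nrm C).map X.inc`, `ext0 X.inc ψ ∈ IrrOn` of it by B13 of di and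
its invariance). Let `Y` be the finite set of the pairs with `dfc p x = D`, `Vx X x = ⊤`. For
`S ⊆ n.primeFactors`, `S ≠ ∅`, let `m = ∏ S`, `m' = n / m`, `T = tor m'`, `N = tor m` (`T ⊔ N = ⊤`, coprime orders,
`T ≠ ⊤`: TRF); SUM: the sum over `Y` of `wt x * JQ (tor m) (om (α x))` is `0`. For `S = ∅` one has `JQ ⊥ = 1`.
Multiply by `∏_{r ∉ S} (r³ - r)` and add over all `S`: by TOT `∏_r (r³ - r)` times the sum of `wt x` over `Y` is
`∏_r (r⁴ - r²)` times the sum over the `x ∈ Y` with `om (α x)` trivial, i.e. with `Extends` (EXR: for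
`Vx X x = ⊤`, `α x ∈ Coc A` by CN0; `φ (X.inc g) = ψ g` for `g ∈ nrm C` iff `φ = ext0 X.inc ψ` on
`X.stab C ψ ⊓ X.proj.ker`). As `r⁴ - r² = r (r³ - r)` and `∏ r = n`, divide; PAP, PAL. In the same way with
`-(r² - 1)(r² - r) = -(r³ - r)(r - 1)` for `Ramified`: `∏_r (r³ - r)(r - 1)` times the first sum is
`∏_r r (r³ - r)` times the sum over the `x` with `Ramified`, and `∏ (r - 1) = φ(n)`
(`Nat.totient_eq_prod_factorization` or `Nat.prod_primeFactors_of_squarefree` and multiplicativity). -/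
def KEY_stmt : Prop :=
  ∀ (G E A : Type) [Group G] [Group E] [Group A] [Finite G] [Finite E] [Finite A]
    (X : Extension G E A) (p : ℕ) [Fact p.Prime] (M : Ideal (integralClosure ℤ ℂ)), M.IsMaximal →
    (p : integralClosure ℤ ℂ) ∈ M → IsOp p (⊤ : Subgroup G) ⊥ → ∀ χ ∈ Irr G, Stable X M χ →
    ∀ 𝒳 : (E : Type) → [Group E] → Prop, ClX 𝒳 → 𝒳 E → ∀ n : ℕ, Squarefree n → ¬ p ∣ n →
    Bic n A → (∀ T : Subgroup A, T ≠ ⊤ → InvX p M 𝒳 T) → ∀ D : ℤ, 1 ≤ D →
    altSum X p M χ D ⊤ = n * altSumP X p M χ D (Extends X) ∧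
    (n : ℤ) * altSumP X p M χ D (Ramified X) = (Nat.totient n : ℤ) * altSum X p M χ D ⊤

/-- **UPW** (short; uses D13 of di, RE, ST of dq, D6 of di). From `U = ⊤` to all `U`: the end of the proof
of `FSTX` in `Pool/Agent/helper35/DR/LocF.lean`. -/
def UPW_stmt : Prop :=
  ∀ (p : ℕ) [Fact p.Prime] (M : Ideal (integralClosure ℤ ℂ)), M.IsMaximal →
    (p : integralClosure ℤ ℂ) ∈ M → ∀ (G E A : Type) [Group G] [Group E] [Group A] [Finite G]
    [Finite E] (X : Extension G E A), ∀ χ ∈ Irr G, PosDefect p M χ →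
    (∀ U : Subgroup A, U ≠ ⊤ → ∀ d : ℤ, altSum (resE X U) p M χ d ⊤ = 0) →
    (Stable X M χ → ∀ d : ℤ, 1 ≤ d → altSum X p M χ d ⊤ = 0) →
    ∀ (d : ℤ) (U : Subgroup A), altSum X p M χ d U = 0

/-! ### part F: nilpotent groups (group theory, independent of the rest) -/

/-- **PNC** (short to medium). (Subgroup `H`: `P.subgroupOf H`, `H ⧸ P.subgroupOf H` embeds in `A ⧸ P`. Image
under a surjective `f`: `P.map f`, `A ⧸ P` maps onto `B ⧸ P.map f`.) -/
def PNC_stmt : Prop :=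
  ∀ p : ℕ, ClX (fun (A : Type) [Group A] => Finite A ∧ PNil p A)

/-- **NZ1** (medium). Proof: let `P` be as in `PNil`. If `P ≠ ⊥` there is `N` with `MinAb N`, `p ∣ |N|`: see the
proof of `LF_hyp` in `Pool/Agent/helper35/DR/LocF.lean`; this contradicts `RedX`. So `P = ⊥` and `A` is
nilpotent. If `p ∣ |A|` the normal Sylow `p`-subgroup is a nontrivial normal `p`-subgroup, the same
contradiction. -/
def NZ1_stmt : Prop :=
  ∀ (p : ℕ) [Fact p.Prime] (A : Type) [Group A] [Finite A], PNil p A → RedX p A →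
    Group.IsNilpotent A ∧ ¬ p ∣ Nat.card A

/-- **NZA** (medium; uses GCC of DR). Proof: `N = ⟨z⟩` is central of order `r`, so `MinAb N`, and by `RedX` it has
exactly `r` complements. Let `V` be one of them; `A = N × V`, `|V →* N| = r` (GCC). A homomorphism
`f : A →* ℂˣ` with `f ^ r = 1` is determined by its restrictions to `N` and `V`, which are arbitrary
homomorphisms with `r`-th power `1`: there are `r` on `N`, and `|V →* N| = r` on `V` (both `N` and the group of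
the `r`-th roots of unity are cyclic of order `r`). An `f` with `f z ≠ 1` exists. -/
def NZA_stmt : Prop :=
  ∀ (p : ℕ) [Fact p.Prime] (A : Type) [Group A] [Finite A], RedX p A → ∀ r : ℕ, r.Prime →
    r ≠ p → ∀ z : A, (∀ a : A, a * z = z * a) → z ≠ 1 → z ^ r = 1 →
    Nat.card {f : A →* ℂˣ // ∀ a, f a ^ r = 1} = r ^ 2 ∧
      ∃ f : A →* ℂˣ, (∀ a, f a ^ r = 1) ∧ f z ≠ 1

/-- **NZB** (medium). Let `n` be the product of the primes dividing `|A|`. Proof: let `K` be the set of the `a ∈ A`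
with `f a = 1` for all primes `r` and all `f : A →* ℂˣ` with `f ^ r = 1` (`r ∣ |A|`); a normal subgroup. If
`K ≠ ⊥` then `K` meets the centre of the nilpotent group `A` nontrivially (take the last nontrivial
term of `K`, `⁅K, A⁆`, `⁅⁅K, A⁆, A⁆`, ...), a power of an element of the intersection has prime
order `r ∣ |A|`, contradiction to the hypothesis. So `K = ⊥`; commutators and `n`-th powers are in `K`. -/
def NZB_stmt : Prop :=
  ∀ (A : Type) [Group A] [Finite A], Group.IsNilpotent A →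
    (∀ r : ℕ, r.Prime → ∀ z : A, (∀ a : A, a * z = z * a) → z ≠ 1 → z ^ r = 1 →
      ∃ f : A →* ℂˣ, (∀ a, f a ^ r = 1) ∧ f z ≠ 1) →
    (∀ a b : A, a * b = b * a) ∧ ∀ a : A, a ^ (∏ r ∈ (Nat.card A).primeFactors, r) = 1

/-- **NZC** (medium). Proof: `B = (A →* ℂˣ)` is a commutative group of order `|A|`
(`CommGroup.card_monoidHom_of_hasEnoughRootsOfUnity`) with `b ^ n = 1`, and for the primes `r ∣ n` the
subgroup of the `b` with `b ^ r = 1` has order `r²`. `B` is the direct product of these subgroups (or: an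
element of order `r²` does not exist, so the Sylow `r`-subgroup of `B` is the subgroup of the `b` with
`b ^ r = 1`; `|B|` is the product of the orders of its Sylow subgroups). -/
def NZC_stmt : Prop :=
  ∀ (A : Type) [Group A] [Finite A], (∀ a b : A, a * b = b * a) → ∀ n : ℕ, Squarefree n →
    (∀ a : A, a ^ n = 1) →
    (∀ r ∈ n.primeFactors, Nat.card {f : A →* ℂˣ // ∀ a, f a ^ r = 1} = r ^ 2) →
    Nat.card A = n ^ 2

/-- **NZ2** (short to medium; from NZA, NZB, NZC). `n` = the product of the primes dividing `|A|`. (A nilpotent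
group has a central element of order `r` for every prime `r ∣ |A|`: the centre of the normal Sylow
`r`-subgroup `R` is normal in `A`, it is nontrivial and meets the centre of `A`.) -/
def NZ2_stmt : Prop :=
  ∀ (p : ℕ) [Fact p.Prime] (A : Type) [Group A] [Finite A], Group.IsNilpotent A → RedX p A →
    ¬ p ∣ Nat.card A → ∃ n : ℕ, Squarefree n ∧ ¬ p ∣ n ∧ Bic n A

/-- **FIN** (medium to long; from KEY, ZER, UPW, PNC, NZ1, NZ2; uses LF_ind, FSTX and so on of DR). The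
first theorem. Proof: (a) implies (b), (c): `Bic n A` implies `PNil p A` (`P = ⊥`, commutative), the same for
all subgroups; KEY (for `1 ≤ d`, stable) and ZER. (b) implies (a) (and (c) implies (a)): induction on `k`:
`InvX p M 𝒳 A` for all `A` with `PNil p A`, `|A| ≤ k`. Use `LF_ind` (`StepX` from `FSTX` as in `FINX`) for the class of the
finite `A` with `PNil p A`, `|A| ≤ k` (PNC): if `RedX p A` fails see the end of `FINX`. If `RedX p A` holds and
`|A| = k`: NZ1, NZ2 give `n` with `Bic n A`, KEY and (b) give `altSum X p M χ d ⊤ = 0` for `X` with `E ∈ 𝒳`, a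
stable block and `1 ≤ d`, and UPW gives `InvX p M 𝒳 A` (the hypothesis of UPW for `U ≠ ⊤`: `InvX p M 𝒳 U` by
induction, as in FSTX). -/
def FIN_stmt : Prop :=
  ∀ (p : ℕ) [Fact p.Prime] (M : Ideal (integralClosure ℤ ℂ)), M.IsMaximal →
    (p : integralClosure ℤ ℂ) ∈ M → ∀ 𝒳 : (E : Type) → [Group E] → Prop, ClX 𝒳 → PrX 𝒳 →
    CeX p 𝒳 → (NilX p M 𝒳 ↔ ExtX p M 𝒳) ∧ (NilX p M 𝒳 ↔ RamX p M 𝒳)

/-! ### part G: two generators -/

/-- **BAS** (medium; from SUM, ASE, CN0, OMC, uses RST, PAL of DR; `hOI` is the first part of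
`Pool.Agent.DR.FINX_stmt` for cyclic groups). The case `P = ⊥`. Proof: SUM for `T = ⊥`, `N = ⊤`
(`InvX p M 𝒳 (⊥ : Subgroup A)` from `hOI`): the sum of `wt x * JQ ⊤ (om (α x))` over the pairs with
`dfc p x = d`, `Vx X x = ⊤` is `0`. By OMC `om (α x) = 1`, so `JQ ⊤` is the number of the pairs which generate `A`,
not `0`, the same for all `x`. PAL. -/
def BAS_stmt : Prop :=
  ∀ (p : ℕ) [Fact p.Prime] (M : Ideal (integralClosure ℤ ℂ)), M.IsMaximal →
    (p : integralClosure ℤ ℂ) ∈ M → ∀ 𝒳 : (E : Type) → [Group E] → Prop, ClX 𝒳 →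
    (∀ (A : Type) [Group A] [Finite A], IsCyclic A → InvX p M 𝒳 A) →
    ∀ (G E A : Type) [Group G] [Group E] [Group A] [Finite G] [Finite E] [Finite A]
    (X : Extension G E A), 𝒳 E → TwoQ p (⊥ : Subgroup A) →
    (∀ r : ℕ, r.Prime → r ≠ p → r ∣ Nat.card G → ∀ R : Sylow r A, IsCyclic R) →
    IsOp p (⊤ : Subgroup G) ⊥ → ∀ χ ∈ Irr G, Stable X M χ → ∀ d : ℤ, 1 ≤ d →
    altSum X p M χ d ⊤ = 0

/-- **TWC** (medium; group theory). The class `Tw` is closed under subgroups and images. Subgroup `H`: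
`P.subgroupOf H`; a subgroup of an abelian group generated by two elements is generated by two
elements (a subgroup of a quotient of `ℤ²`; or for finite groups by Sylow subgroups); the index of
`P.subgroupOf H` divides that of `P` as `H ⧸ P.subgroupOf H` embeds in `A ⧸ P`; a Sylow `r`-subgroup of `H` is
contained in (the image of) one of `A`. Image: `P.map f`; a Sylow `r`-subgroup of `B` is the image of one
of `A`. -/
def TWC_stmt : Prop :=
  ∀ (p : ℕ) [Fact p.Prime] (ρ : ℕ → Prop), ClX (fun (A : Type) [Group A] => Tw p ρ A)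

/-- **TWI** (medium to long; from BAS, TWC, UPW; uses PCAX, GVM of DR, `LF_KE`). Induction on `|A|`. Proof. Let `P` be as in
`Tw`. By UPW it is enough to treat `U = ⊤`, a stable block and `1 ≤ d`: for `U ≠ ⊤` use the induction for
`resE X U` (TWC). If `P = ⊥`: BAS. If `P ≠ ⊥` there is `N ≤ P` with `MinAb N`, `p ∣ |N|`: proof of `LF_hyp` in
`Pool/Agent/helper35/DR/LocF.lean`. Use PCAX for the class `𝒳'` of the groups `E'` which are finite, in `𝒳`, and
satisfy `v_r |E'| ≤ v_r |A|` for all primes `r` with `ρ r` (it is closed under subgroups and images).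
`InvX p M 𝒳' (A ⧸ N)`: if `E' / G' ≅ A / N` then `v_r |E'| = v_r |G'| + v_r |A / N|` and `v_r |A / N| = v_r |A|`
(`r ≠ p`, `|N|` is a power of `p`), so `v_r |G'| = 0`, and the induction hypothesis applies (TWC).
`KE X (diag A) ∈ 𝒳'`: its order is `|G|² |A|` (PMP of DR), and `LF_KE`. For a complement `V` of `N` the sum of
the `altSum` for `V` and for `⊤` is `altSum (resE X V) .. ⊤ = 0` (GVM, RE; see FSTX). -/
def TWI_stmt : Prop :=
  ∀ (p : ℕ) [Fact p.Prime] (M : Ideal (integralClosure ℤ ℂ)), M.IsMaximal →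
    (p : integralClosure ℤ ℂ) ∈ M → ∀ 𝒳 : (E : Type) → [Group E] → Prop, ClX 𝒳 →
    (∀ (A : Type) [Group A] [Finite A], IsCyclic A → InvX p M 𝒳 A) →
    ∀ ρ : ℕ → Prop, (∀ r, ρ r → r.Prime ∧ r ≠ p) →
    ∀ (G E A : Type) [Group G] [Group E] [Group A] [Finite G] [Finite E] (X : Extension G E A),
    𝒳 E → Tw p ρ A → (PrX 𝒳 ∨ ¬ p ∣ Nat.card A) → (∀ r, ρ r → ¬ r ∣ Nat.card G) →
    IsOp p (⊤ : Subgroup G) ⊥ → ∀ χ ∈ Irr G, PosDefect p M χ →
    ∀ (d : ℤ) (U : Subgroup A), altSum X p M χ d U = 0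

/-- **FTW** (short; from TWI; `FINX_stmt` of DR gives the cyclic case). Take `ρ r : r.Prime ∧ r ≠ p ∧
¬ r ∣ Nat.card G`. -/
def FTW_stmt : Prop :=
  ∀ (p : ℕ) [Fact p.Prime] (M : Ideal (integralClosure ℤ ℂ)), M.IsMaximal →
    (p : integralClosure ℤ ℂ) ∈ M → ∀ 𝒳 : (E : Type) → [Group E] → Prop, ClX 𝒳 →
    OrdX p M 𝒳 → ∀ (G E A : Type) [Group G] [Group E] [Group A] [Finite G] [Finite E]
    (X : Extension G E A), 𝒳 E → (∃ P : Subgroup A, IsPGroup p P ∧ TwoQ p P) →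
    (PrX 𝒳 ∨ ¬ p ∣ Nat.card A) →
    (∀ r : ℕ, r.Prime → r ≠ p → r ∣ Nat.card G → ∀ R : Sylow r A, IsCyclic R) →
    IsOp p (⊤ : Subgroup G) ⊥ → ∀ χ ∈ Irr G, PosDefect p M χ →
    ∀ (d : ℤ) (U : Subgroup A), altSum X p M χ d U = 0

end Pool.Agent.NQ
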