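import Pool.Agent.helper64.NQ.Spec

/-!
# Project nq, row ASE: existence of an associated cocycle
-/

set_option autoImplicit false

namespace Pool.Agent.NQ

open Pool.Agent.helper58.DC Pool.Agent.DI Pool.Agent.DR

theorem ASE_ext {Γ : Type} [Group Γ] (S : Subgroup Γ) (ψ : Γ → ℂ) (h : ∀ x, x ∉ S → ψ x = 0) :
    ext0 S.subtype (fun x : S => ψ x) = ψ := by
  funext x
  by_cases hx : x ∈ S
  · have h1 := S.subtype_injective.extend_apply (fun x : S => ψ x) (0 : Γ → ℂ) ⟨x, hx⟩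
    exact h1
  · rw [h x hx]
    unfold ext0
    rw [Function.extend_apply']
    · rfl
    · rintro ⟨y, hy⟩
      exact hx (hy ▸ y.2)

theorem ASE (hTEX : TEX_stmt) (hB13 : B13_stmt) : ASE_stmt := by
  classical
  intro Γ Q _ _ _ _ q S ψ hψ hinv
  have hoff : ∀ x, x ∉ S → ψ x = 0 := fun x hx => hψ.1 x fun h => hx h.1
  let ψ' : S → ℂ := fun x => ψ x
  let q' : S →* S.map q := q.subgroupMap S
  have hq' : ∀ x : S, ((q' x : S.map q) : Q) = q x := fun x => rfl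
  have hmap : ((⊤ : Subgroup S) ⊓ q'.ker).map S.subtype = S ⊓ q.ker := by
    ext x
    constructor
    · rintro ⟨y, hy, rfl⟩
      refine ⟨y.2, ?_⟩
      have h1 : q' y = 1 := hy.2
      have h2 := congrArg (Subtype.val) h1
      exact h2
    · rintro ⟨hx, hx'⟩
      refine ⟨⟨x, hx⟩, ⟨trivial, ?_⟩, rfl⟩
      exact Subtype.ext hx'
  have h1 : ψ' ∈ IrrOn ((⊤ : Subgroup S) ⊓ q'.ker) := by
    obtain ⟨-, b2, -⟩ := hB13 S Γ 2 S.subtype S.subtype_injective ((⊤ : Subgroup S) ⊓ q'.ker)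
    rw [b2, hmap, ASE_ext S ψ hoff]
    exact hψ
  have h2 : ∀ s ∈ (⊤ : Subgroup S), funMap (MulAut.conj s) ψ' = ψ' := by
    intro s _
    funext x
    have h3 := congrFun (hinv s s.2) x
    exact h3
  have htop : (⊤ : Subgroup S).map q' = ⊤ := by
    rw [← MonoidHom.range_eq_map, MonoidHom.range_eq_top]
    exact q.subgroupMap_surjective S
  obtain ⟨α', hα', V, _, _, _, T', hT'⟩ := hTEX S (S.map q) q' ⊤ htop ψ' h1 h2
  refine ⟨fun a b => if h : a ∈ S.map q ∧ b ∈ S.map q then α' ⟨a, h.1⟩ ⟨b, h.2⟩ else 1,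
    V, inferInstance, inferInstance, inferInstance,
    fun x => if h : x ∈ S then T' ⟨x, h⟩ else 1, ?_, ?_, ?_⟩
  · rw [dif_pos S.one_mem]
    exact hT'.one
  · intro s hs s' hs'
    rw [dif_pos hs, dif_pos hs', dif_pos (S.mul_mem hs hs'),
      dif_pos ⟨Subgroup.mem_map_of_mem q hs, Subgroup.mem_map_of_mem q hs'⟩]
    exact hT'.mul ⟨s, hs⟩ trivial ⟨s', hs'⟩ trivial
  · intro h hh
    have hhS : h ∈ S := hh.1
    rw [dif_pos hhS]
    exact hT'.tr ⟨h, hh.1⟩ ⟨trivial, Subtype.ext hh.2⟩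

end Pool.Agent.NQ
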