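import Pool.Agent.helper64.NQ.Spec

/-!
# Row nq:CN0
-/

set_option autoImplicit false

namespace Pool.Agent.NQ

open Pool.Agent.helper58.DC Pool.Agent.DI Pool.Agent.DR

/-- The cocycle associated with a character is a normalised cocycle. -/
theorem CN0 (hB2 : Pool.Agent.DI.B2_stmt) : CN0_stmt := by
  intro Γ Q _ _ _ _ q S ψ hψ α hA
  obtain ⟨V, _, _, _, T, hT⟩ := hA
  obtain ⟨-, h2⟩ := hB2 Γ (S ⊓ q.ker)
  obtain ⟨⟨n, hn, hn1, -⟩, -⟩ := h2 ψ hψ
  have hV : (1 : Module.End ℂ V) ≠ 0 := by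
    intro h
    have h3 := hT.tr 1 (S ⊓ q.ker).one_mem
    rw [hT.one, h, map_zero, hn1] at h3
    exact (Nat.cast_ne_zero.2 hn.ne') h3
  have hne : ∀ s ∈ S, T s ≠ 0 := by
    intro s hs h0
    have h3 := hT.mul s hs s⁻¹ (S.inv_mem hs)
    rw [h0, zero_mul, mul_inv_cancel, hT.one] at h3
    exact smul_ne_zero (Units.ne_zero _) hV h3.symm
  have hcancel : ∀ s ∈ S, ∀ a b : ℂˣ, (a : ℂ) • T s = (b : ℂ) • T s → a = b := by
    intro s hs a b h
    have h3 : ((a : ℂ) - b) • T s = 0 := by rw [sub_smul, h, sub_self]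
    rcases smul_eq_zero.1 h3 with h4 | h4
    · exact Units.ext (sub_eq_zero.1 h4)
    · exact absurd h4 (hne s hs)
  refine ⟨?_, ?_⟩
  · rintro _ ⟨s, hs, rfl⟩ _ ⟨s', hs', rfl⟩ _ ⟨s'', hs'', rfl⟩
    refine hcancel (s * s' * s'') (S.mul_mem (S.mul_mem hs hs') hs'') _ _ ?_
    have e1 : T s * T s' * T s'' =
        ((α (q s) (q s') * α (q s * q s') (q s'') : ℂˣ) : ℂ) • T (s * s' * s'') := by
      rw [hT.mul s hs s' hs', smul_mul_assoc, hT.mul _ (S.mul_mem hs hs') s'' hs'', map_mul,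
        smul_smul, Units.val_mul]
    have e2 : T s * T s' * T s'' =
        ((α (q s) (q s' * q s'') * α (q s') (q s'') : ℂˣ) : ℂ) • T (s * s' * s'') := by
      rw [mul_assoc, hT.mul s' hs' s'' hs'', mul_smul_comm,
        hT.mul s hs _ (S.mul_mem hs' hs''), map_mul, smul_smul, Units.val_mul, mul_comm,
        mul_assoc s s' s'']
    rw [← e1, ← e2]
  · rintro _ ⟨s, hs, rfl⟩
    constructor
    · refine hcancel s hs _ _ ?_
      have h3 := hT.mul 1 S.one_mem s hs
      rw [hT.one, one_mul, one_mul, map_one] at h3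
      rw [← h3, Units.val_one, one_smul]
    · refine hcancel s hs _ _ ?_
      have h3 := hT.mul s hs 1 S.one_mem
      rw [hT.one, mul_one, mul_one, map_one] at h3
      rw [← h3, Units.val_one, one_smul]

end Pool.Agent.NQ
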