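import Pool.Agent.helper64.NQ.Spec

/-!
# Project nq: the key identities
-/

set_option autoImplicit false

namespace Pool.Agent.NQ

open Pool.Agent.helper58.DC Pool.Agent.DI Pool.Agent.DR

section

variable {G E A : Type} [Group G] [Group E] [Group A] [Finite G] [Finite E] [Finite A]

/-- the pairs form a finite set -/
theorem KEY_fin (hIF : IF_stmt) (p : ℕ) (M : Ideal (integralClosure ℤ ℂ)) (χ : G → ℂ) :
    {x : Finset (Subgroup G) × (G → ℂ) | IsPair p M χ x}.Finite := by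
  have h1 : (⋃ C : Finset (Subgroup G), (fun ψ : G → ℂ => (C, ψ)) '' IrrOn (nrm C)).Finite :=
    Set.finite_iUnion fun C => (hIF G (nrm C)).1.image _
  refine h1.subset ?_
  rintro ⟨C, ψ⟩ hx
  exact Set.mem_iUnion.2 ⟨C, ψ, hx.2.1, rfl⟩

/-- the data of a pair -/
theorem KEY_pair (hRST : RST_stmt) (hB13 : B13_stmt) (X : Extension G E A) (p : ℕ)
    (M : Ideal (integralClosure ℤ ℂ)) (χ : G → ℂ) (x : Finset (Subgroup G) × (G → ℂ))
    (hx : IsPair p M χ x) :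
    X.stab x.1 x.2 ⊓ X.proj.ker = (nrm x.1).map X.inc ∧
    ext0 X.inc x.2 ∈ IrrOn (X.stab x.1 x.2 ⊓ X.proj.ker) ∧
    (∀ s ∈ X.stab x.1 x.2, funMap (MulAut.conj s) (ext0 X.inc x.2) = ext0 X.inc x.2) ∧
    ∀ g, ext0 X.inc x.2 (X.inc g) = x.2 g := by
  obtain ⟨P₀, hP₀, -⟩ := hx.1.radical
  obtain ⟨-, -, h3⟩ := hRST G E A X x.1 hx.1.chain ⟨P₀, hP₀⟩
  obtain ⟨-, h4, h5⟩ := h3 x.2 hx.2.1
  obtain ⟨b1, b2, -⟩ := hB13 G E p X.inc X.inc_injective (nrm x.1)
  refine ⟨h4, ?_, h5, (b1 x.2).1⟩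
  rw [h4]
  exact (b2 x.2).1 hx.2.1

theorem KEY_ext (hEXR : EXR_stmt) (hRST : RST_stmt) (hB13 : B13_stmt) (X : Extension G E A)
    (p : ℕ) (M : Ideal (integralClosure ℤ ℂ)) (χ : G → ℂ) (hc : ∀ a b : A, a * b = b * a)
    (x : Finset (Subgroup G) × (G → ℂ)) (hx : IsPair p M χ x) (hV : Vx X x = ⊤)
    (α : A → A → ℂˣ) (hα : α ∈ Coc A) (hasc : Asc (X.stab x.1 x.2) X.proj (ext0 X.inc x.2) α) :
    (Extends X x.1 x.2 ↔ ∀ y z, om α y z = 1) ∧
    (Ramified X x.1 x.2 ↔ ∀ z, (∀ y, om α y z = 1) → z = 1) := by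
  obtain ⟨h1, h2, h3, h4⟩ := KEY_pair hRST hB13 X p M χ x hx
  obtain ⟨e1, e2⟩ := hEXR E A X.proj (X.stab x.1 x.2) hV hc (ext0 X.inc x.2) h2 h3 α hα hasc
  have h5 : ∀ (φ : E → ℂ) (e : ℂ), (∀ y ∈ X.stab x.1 x.2 ⊓ X.proj.ker, φ y = e * ext0 X.inc x.2 y) ↔
      ∀ g ∈ nrm x.1, φ (X.inc g) = e * x.2 g := by
    intro φ e
    rw [h1]
    constructor
    · intro h g hg
      rw [h (X.inc g) (Subgroup.mem_map_of_mem _ hg), h4]
    · rintro h _ ⟨g, hg, rfl⟩
      rw [h g hg, h4]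
  constructor
  · rw [← e1]
    constructor
    · rintro ⟨φ, hφ, h⟩
      refine ⟨φ, hφ, ?_⟩
      have := (h5 φ 1).2 (by simpa using h)
      simpa using this
    · rintro ⟨φ, hφ, h⟩
      refine ⟨φ, hφ, ?_⟩
      have := (h5 φ 1).1 (by simpa using h)
      simpa using this
  · rw [← e2]
    have h6 : ∀ φ : E → ℂ, (φ ∈ IrrOn (X.stab x.1 x.2) ∧
        ∃ e : ℕ, ∀ g ∈ nrm x.1, φ (X.inc g) = e * x.2 g) ↔
        (φ ∈ IrrOn (X.stab x.1 x.2) ∧
          ∃ e : ℕ, ∀ y ∈ X.stab x.1 x.2 ⊓ X.proj.ker, φ y = e * ext0 X.inc x.2 y) := by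
      intro φ
      refine and_congr_right fun _ => exists_congr fun e => ?_
      exact (h5 φ e).symm
    unfold Ramified
    exact existsUnique_congr h6

end

open Classical in
/-- the abstract computation -/
theorem KEY_abs {ι : Type} (Y : Finset ι) (w : ι → ℂ) (P : Finset ℕ) (J : Finset ℕ → ι → ℂ)
    (c : ℕ → ℂ) (K : ℂ) (R : ι → Prop)
    (h0 : ∀ x ∈ Y, J ∅ x = 1)
    (h1 : ∀ S ∈ P.powerset, S ≠ ∅ → ∑ x ∈ Y, w x * J S x = 0)
    (h2 : ∀ x ∈ Y, ∑ S ∈ P.powerset, J S x * ∏ r ∈ P \ S, c r = if R x then K else 0) :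
    (∏ r ∈ P, c r) * ∑ x ∈ Y, w x = K * ∑ x ∈ Y, if R x then w x else 0 := by
  have e1 : ∑ x ∈ Y, w x * ∑ S ∈ P.powerset, J S x * ∏ r ∈ P \ S, c r =
      K * ∑ x ∈ Y, if R x then w x else 0 := by
    rw [Finset.mul_sum]
    refine Finset.sum_congr rfl fun x hx => ?_
    rw [h2 x hx]
    split_ifs
    · rw [mul_comm]
    · rw [mul_zero, mul_zero]
  rw [← e1]
  have e2 : ∑ x ∈ Y, w x * ∑ S ∈ P.powerset, J S x * ∏ r ∈ P \ S, c r =
      ∑ S ∈ P.powerset, (∏ r ∈ P \ S, c r) * ∑ x ∈ Y, w x * J S x := by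
    simp_rw [Finset.mul_sum]
    rw [Finset.sum_comm]
    refine Finset.sum_congr rfl fun S _ => Finset.sum_congr rfl fun x _ => ?_
    ring
  rw [e2]
  symm
  refine (Finset.sum_eq_single (∅ : Finset ℕ) ?_ ?_).trans ?_
  · intro S hS hS0
    rw [h1 S hS hS0, mul_zero]
  · intro h
    exact absurd (Finset.empty_mem_powerset P) h
  · rw [Finset.sdiff_empty]
    congr 1
    refine Finset.sum_congr rfl fun x hx => ?_
    rw [h0 x hx, mul_one]

theorem KEY (hSUM : SUM_stmt) (hASE : ASE_stmt) (hCN0 : CN0_stmt) (hOMA : OMA_stmt)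
    (hTRF : TRF_stmt) (hJTP : JTP_stmt) (hTOT : TOT_stmt) (hEXR : EXR_stmt) (hEIV : EIV_stmt)
    (hPAP : PAP_stmt) (hPAL : PAL_stmt) (hRST : RST_stmt) (hB13 : B13_stmt) (hIF : IF_stmt) :
    KEY_stmt := by
  classical
  intro G E A _ _ _ _ _ _ X p _ M hM hpM hop χ hχ hst 𝒳 hCl hE n hn hpn hB hInv D hD
  have hc : ∀ a b : A, a * b = b * a := hB.1
  have hn0 : n ≠ 0 := hn.ne_zero
  have hpA : ¬ p ∣ Nat.card A := by
    rw [hB.2.1]
    intro h
    exact hpn ((Fact.out : p.Prime).dvd_of_dvd_pow h)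
  -- the cocycles
  have hex : ∀ x : Finset (Subgroup G) × (G → ℂ), IsPair p M χ x → ∃ α : A → A → ℂˣ,
      Asc (X.stab x.1 x.2) X.proj (ext0 X.inc x.2) α := by
    intro x hx
    obtain ⟨-, h2, h3, -⟩ := KEY_pair hRST hB13 X p M χ x hx
    exact hASE E A X.proj (X.stab x.1 x.2) _ h2 h3
  let α : Finset (Subgroup G) × (G → ℂ) → A → A → ℂˣ := fun x =>
    if h : IsPair p M χ x then (hex x h).choose else 1
  have hα : ∀ x, IsPair p M χ x → Asc (X.stab x.1 x.2) X.proj (ext0 X.inc x.2) (α x) := by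
    intro x hx
    have h1 : α x = (hex x hx).choose := dif_pos hx
    rw [h1]
    exact (hex x hx).choose_spec
  have hcoc : ∀ x, IsPair p M χ x → Vx X x = ⊤ → α x ∈ Coc A ∧ IsAlt ⊤ (om (α x)) := by
    intro x hx hV
    obtain ⟨-, h2, h3, -⟩ := KEY_pair hRST hB13 X p M χ x hx
    have h4 := hCN0 E A X.proj (X.stab x.1 x.2) _ h2 (α x) (hα x hx)
    have h5 : (X.stab x.1 x.2).map X.proj = ⊤ := hV
    rw [h5] at h4
    refine ⟨⟨fun a b c => h4.1 a trivial b trivial c trivial, fun a => (h4.2 a trivial).1,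
      fun a => (h4.2 a trivial).2⟩, hOMA A ⊤ (fun x _ y _ => hc x y) _ h4⟩
  -- the finite set of pairs
  have hfin := KEY_fin hIF p M χ
  obtain ⟨Y, hY⟩ : ∃ Y : Finset (Finset (Subgroup G) × (G → ℂ)), ∀ x, x ∈ Y ↔
      IsPair p M χ x ∧ dfc p x = D ∧ Vx X x = ⊤ := by
    have hfin' : {x : Finset (Subgroup G) × (G → ℂ) | IsPair p M χ x ∧ dfc p x = D ∧
        Vx X x = ⊤}.Finite := hfin.subset fun x hx => hx.1
    refine ⟨hfin'.toFinset, fun x => ?_⟩
    rw [Set.Finite.mem_toFinset]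
    rfl
  have hYs : ∀ Φ : Finset (Subgroup G) → (G → ℂ) → Prop,
      ∑ᶠ x ∈ {x : Finset (Subgroup G) × (G → ℂ) | IsPair p M χ x ∧ dfc p x = D ∧
        Vx X x = ⊤ ∧ Φ x.1 x.2}, wt x = ∑ x ∈ Y, if Φ x.1 x.2 then wt x else 0 := by
    intro Φ
    rw [← Finset.sum_filter, ← finsum_mem_coe_finset]
    refine finsum_mem_congr ?_ fun x _ => rfl
    ext x
    rw [Finset.mem_coe, Finset.mem_filter, hY]
    constructor
    · rintro ⟨h1, h2, h3, h4⟩
      exact ⟨⟨h1, h2, h3⟩, h4⟩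
    · rintro ⟨⟨h1, h2, h3⟩, h4⟩
      exact ⟨h1, h2, h3, h4⟩
  have hYt : (Nat.card G : ℤ) * altSum X p M χ D ⊤ = ∑ x ∈ Y, wt x := by
    rw [hPAL G E A X p M χ hχ D ⊤, ← finsum_mem_coe_finset]
    refine finsum_mem_congr ?_ fun x _ => rfl
    ext x
    rw [Finset.mem_coe, hY]
    rfl
  -- the structure of `A`
  obtain ⟨htop, hcard, hsup⟩ := hTRF A hc n hn hB
  have hprod : ∏ r ∈ n.primeFactors, r = n := Nat.prod_primeFactors_of_squarefree hn
  have hsplit : ∀ S ⊆ n.primeFactors,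
      (∏ r ∈ n.primeFactors \ S, r) * ∏ r ∈ S, r = n := by
    intro S hS
    rw [Finset.prod_sdiff hS, hprod]
  have hrel : ∀ S ∈ n.primeFactors.powerset, S ≠ ∅ →
      ∑ x ∈ Y, (wt x : ℂ) * JQ (tor A hc (∏ r ∈ S, r)) (om (α x)) = 0 := by
    intro S hS hS0
    have hS' : S ⊆ n.primeFactors := Finset.mem_powerset.1 hS
    have hmm := hsplit S hS'
    set m := ∏ r ∈ S, r with hm
    set m' := ∏ r ∈ n.primeFactors \ S, r with hm'
    have hcop : m'.Coprime m := by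
      have : Squarefree (m' * m) := by rw [hmm]; exact hn
      exact Nat.coprime_of_squarefree_mul this
    have hdm : m ∣ n := ⟨m', by rw [mul_comm]; exact hmm.symm⟩
    have hdm' : m' ∣ n := ⟨m, hmm.symm⟩
    have hm1 : m ≠ 1 := by
      obtain ⟨r, hr⟩ := Finset.nonempty_iff_ne_empty.2 hS0
      intro h
      have h1 : r ∣ m := Finset.dvd_prod_of_mem _ hr
      rw [h] at h1
      exact (Nat.prime_of_mem_primeFactors (hS' hr)).one_lt.ne' (Nat.dvd_one.1 h1)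
    have hT : tor A hc m' ≠ ⊤ := by
      intro h
      have h1 := hcard m' hdm'
      rw [h, Subgroup.card_top, hB.2.1] at h1
      have h2 : n = m' := by
        have := Nat.pow_left_injective (by norm_num : (2 : ℕ) ≠ 0) h1
        exact this
      rw [← h2] at hmm
      have h3 : m = 1 := by
        have h4 : n * m = n * 1 := by rw [hmm, mul_one]
        exact Nat.eq_of_mul_eq_mul_left (Nat.pos_of_ne_zero hn0) h4
      exact hm1 h3
    have hTN : tor A hc m' ⊔ tor A hc m = ⊤ := by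
      rw [hsup m' m (by rw [hmm]), hmm, htop]
    have hco : (Nat.card (tor A hc m')).Coprime (Nat.card (tor A hc m)) := by
      rw [hcard m' hdm', hcard m hdm]
      exact Nat.Coprime.pow 2 2 hcop
    have h1 := hSUM G E A X p M hM hpM hop χ hχ hst hc hpA 𝒳 hCl hE (tor A hc m') (tor A hc m)
      hco (hInv _ hT) D hD α hα
    rw [hTN] at h1
    rw [← h1, ← finsum_mem_coe_finset]
    refine finsum_mem_congr ?_ fun x _ => rfl
    ext x
    rw [Finset.mem_coe, hY]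
    show _ ↔ _ ∧ _ ∧ ⊤ ≤ Vx X x
    rw [top_le_iff]
  have h0 : ∀ x ∈ Y, JQ (tor A hc (∏ r ∈ (∅ : Finset ℕ), r)) (om (α x)) = 1 := by
    intro x hx
    have hx' := (hY x).1 hx
    rw [hJTP A hc n hn hB (om (α x)) (hcoc x hx'.1 hx'.2.2).2 ∅ (Finset.empty_subset _)]
    exact Finset.prod_empty
  have hG0 : (Nat.card G : ℤ) ≠ 0 := by exact_mod_cast Nat.card_pos.ne'
  have hr3 : ∀ r ∈ n.primeFactors, ((r : ℂ) ^ 3 - r) ≠ 0 := by
    intro r hr
    have h2 : 2 ≤ r := (Nat.prime_of_mem_primeFactors hr).two_le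
    have h3 : ((r : ℂ) ^ 3 - r) = (((r ^ 3 - r : ℤ)) : ℂ) := by push_cast; ring
    rw [h3]
    have h4 : (0 : ℤ) < (r : ℤ) ^ 3 - r := by
      have h5 : (2 : ℤ) ≤ r := by exact_mod_cast h2
      nlinarith [mul_pos (show (0 : ℤ) < r by linarith) (show (0 : ℤ) < r by linarith)]
    exact_mod_cast h4.ne'
  have hnC : ∏ r ∈ n.primeFactors, (r : ℂ) = n := by
    rw [← Nat.cast_prod, hprod]
  constructor
  · -- extendible characters
    have h1 := KEY_abs Y (fun x => (wt x : ℂ)) n.primeFactors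
      (fun S x => JQ (tor A hc (∏ r ∈ S, r)) (om (α x))) (fun r => (r : ℂ) ^ 3 - r)
      (∏ r ∈ n.primeFactors, ((r : ℂ) ^ 4 - (r : ℂ) ^ 2)) (fun x => Extends X x.1 x.2) h0 hrel
      (fun x hx => by
        have hx' := (hY x).1 hx
        obtain ⟨hc1, hc2⟩ := hcoc x hx'.1 hx'.2.2
        have h2 := (hTOT A hc n hn hB (om (α x)) hc2).1
        have h3 := (KEY_ext hEXR hRST hB13 X p M χ hc x hx'.1 hx'.2.2 (α x) hc1 (hα x hx'.1)).1
        simp only [h3]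
        exact h2)
    have h2 : ∏ r ∈ n.primeFactors, ((r : ℂ) ^ 4 - (r : ℂ) ^ 2) =
        n * ∏ r ∈ n.primeFactors, ((r : ℂ) ^ 3 - r) := by
      rw [← hnC, ← Finset.prod_mul_distrib]
      refine Finset.prod_congr rfl fun r _ => ?_
      ring
    have h3 : ∏ r ∈ n.primeFactors, ((r : ℂ) ^ 3 - r) ≠ 0 := Finset.prod_ne_zero_iff.2 hr3
    rw [h2] at h1
    have h4 : ∑ x ∈ Y, (wt x : ℂ) = n * ∑ x ∈ Y, if Extends X x.1 x.2 then (wt x : ℂ) else 0 := by
      apply mul_left_cancel₀ h3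
      rw [h1]
      ring
    have h5 : ∑ x ∈ Y, wt x = n * ∑ x ∈ Y, if Extends X x.1 x.2 then wt x else 0 := by
      have h6 : ((∑ x ∈ Y, wt x : ℤ) : ℂ) =
          ((n * ∑ x ∈ Y, if Extends X x.1 x.2 then wt x else 0 : ℤ) : ℂ) := by
        push_cast
        rw [h4]
      exact_mod_cast h6
    rw [← hYt, ← hYs, ← hPAP G E A X p M χ hχ D (Extends X)
      (fun C ψ g => (hEIV G E A X C ψ g).1)] at h5
    apply mul_left_cancel₀ hG0
    rw [h5]
    ring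
  · -- ramified characters
    have h1 := KEY_abs Y (fun x => (wt x : ℂ)) n.primeFactors
      (fun S x => JQ (tor A hc (∏ r ∈ S, r)) (om (α x)))
      (fun r => -(((r : ℂ) ^ 2 - 1) * ((r : ℂ) ^ 2 - r)))
      (∏ r ∈ n.primeFactors, (-((r : ℂ) ^ 4 - (r : ℂ) ^ 2))) (fun x => Ramified X x.1 x.2) h0 hrel
      (fun x hx => by
        have hx' := (hY x).1 hx
        obtain ⟨hc1, hc2⟩ := hcoc x hx'.1 hx'.2.2
        have h2 := (hTOT A hc n hn hB (om (α x)) hc2).2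
        have h3 := (KEY_ext hEXR hRST hB13 X p M χ hc x hx'.1 hx'.2.2 (α x) hc1 (hα x hx'.1)).2
        simp only [h3]
        exact h2)
    have h2 : ∏ r ∈ n.primeFactors, (-((r : ℂ) ^ 4 - (r : ℂ) ^ 2)) =
        n * ∏ r ∈ n.primeFactors, (-((r : ℂ) ^ 3 - r)) := by
      rw [← hnC, ← Finset.prod_mul_distrib]
      refine Finset.prod_congr rfl fun r _ => ?_
      ring
    have htot : (Nat.totient n : ℂ) = ∏ r ∈ n.primeFactors, ((r : ℂ) - 1) := by
      have h3 := Nat.totient_mul_prod_primeFactors n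
      rw [hprod, mul_comm n] at h3
      have h4 := Nat.eq_of_mul_eq_mul_right (Nat.pos_of_ne_zero hn0) h3
      rw [h4, Nat.cast_prod]
      refine Finset.prod_congr rfl fun r hr => ?_
      rw [Nat.cast_sub (Nat.prime_of_mem_primeFactors hr).one_le, Nat.cast_one]
    have h2' : ∏ r ∈ n.primeFactors, (-(((r : ℂ) ^ 2 - 1) * ((r : ℂ) ^ 2 - r))) =
        (Nat.totient n : ℂ) * ∏ r ∈ n.primeFactors, (-((r : ℂ) ^ 3 - r)) := by
      rw [htot, ← Finset.prod_mul_distrib]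
      refine Finset.prod_congr rfl fun r _ => ?_
      ring
    have h3 : ∏ r ∈ n.primeFactors, (-((r : ℂ) ^ 3 - r)) ≠ 0 :=
      Finset.prod_ne_zero_iff.2 fun r hr => neg_ne_zero.2 (hr3 r hr)
    rw [h2, h2'] at h1
    have h4 : (Nat.totient n : ℂ) * ∑ x ∈ Y, (wt x : ℂ) =
        n * ∑ x ∈ Y, if Ramified X x.1 x.2 then (wt x : ℂ) else 0 := by
      apply mul_left_cancel₀ h3
      linear_combination h1
    have h5 : (Nat.totient n : ℤ) * ∑ x ∈ Y, wt x =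
        n * ∑ x ∈ Y, if Ramified X x.1 x.2 then wt x else 0 := by
      have h6 : (((Nat.totient n : ℤ) * ∑ x ∈ Y, wt x : ℤ) : ℂ) =
          ((n * ∑ x ∈ Y, if Ramified X x.1 x.2 then wt x else 0 : ℤ) : ℂ) := by
        push_cast
        rw [h4]
      exact_mod_cast h6
    rw [← hYt, ← hYs, ← hPAP G E A X p M χ hχ D (Ramified X)
      (fun C ψ g => (hEIV G E A X C ψ g).2)] at h5
    apply mul_left_cancel₀ hG0
    linear_combination -h5

end Pool.Agent.NQ
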