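import Pool.Agent.helper35.DR.All
import Pool.Agent.helper12.NQ.NZ1
import Pool.Agent.helper14.NQ.GN1
import Pool.Agent.helper16.NQ.OMC
import Pool.Agent.helper17.NQ.BAS
import Pool.Agent.helper19.NQ.INR
import Pool.Agent.helper23.NQ.JRR
import Pool.Agent.helper3.NQ.EIV
import Pool.Agent.helper32.NQ.TWC
import Pool.Agent.helper34.NQ.JPR
import Pool.Agent.helper37.NQ.ATR
import Pool.Agent.helper39.NQ.KQR
import Pool.Agent.helper43.NQ.GEN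
import Pool.Agent.helper45.NQ.JTP
import Pool.Agent.helper48.NQ.TRF
import Pool.Agent.helper49.NQ.SUM
import Pool.Agent.helper51.NQ.GNC
import Pool.Agent.helper56.NQ.PEX
import Pool.Agent.helper58.NQ.PNC
import Pool.Agent.helper61.NQ.RLU
import Pool.Agent.helper64.NQ.ASE
import Pool.Agent.helper64.NQ.KEY
import Pool.Agent.helper71.NQ.OMA
import Pool.Agent.helper72.NQ.UPW
import Pool.Agent.helper76.NQ.CNA
import Pool.Agent.helper78.NQ.GNA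
import Pool.Agent.helper79.NQ.TWI
import Pool.Agent.helper82.NQ.RES
import Pool.Agent.helper87.NQ.TOT
import Pool.Agent.helper9.NQ.FTW
import Pool.Agent.helper64.NQ.CN0
import Pool.Agent.helper81.NQ.PAP
import Pool.Agent.helper22.NQ.ZER
import Pool.Agent.helper82.NQ.NZA
import Pool.Agent.helper92.NQ.NZB
import Pool.Agent.helper51.NQ.NZC
import Pool.Agent.helper76.NQ.NZ2
import Pool.Agent.helper33.NQ.EXR
import Pool.Agent.helper98.NQ.FIN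

/-!
# Project nq (MP_baa4d7_al): assembly of all modules
-/

set_option autoImplicit false

namespace Pool.Agent.NQ.All

open Pool.Agent.helper58.DC Pool.Agent.DI Pool.Agent.DR Pool.Agent.NQ

theorem nOMA : OMA_stmt := Pool.Agent.NQ.OMA
theorem nKQR : KQR_stmt := Pool.Agent.NQ.KQR
theorem nGEN : GEN_stmt := Pool.Agent.NQ.GEN
theorem nJPR : JPR_stmt := Pool.Agent.NQ.JPR
theorem nJRR : JRR_stmt := Pool.Agent.NQ.JRR nKQR
theorem nTRF : TRF_stmt := Pool.Agent.NQ.TRF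
theorem nJTP : JTP_stmt := Pool.Agent.NQ.JTP nTRF nJPR
theorem nATR : ATR_stmt := Pool.Agent.NQ.ATR nTRF
theorem nTOT : TOT_stmt := Pool.Agent.NQ.TOT nJTP nJRR nTRF nATR
theorem nGN1 : GN1_stmt := Pool.Agent.NQ.GN1 Pool.Agent.DR.All.rKSC
theorem nGNC : GNC_stmt := Pool.Agent.NQ.GNC nGN1 nOMA
theorem nGNA : GNA_stmt := Pool.Agent.NQ.GNA nGNC nGN1 nKQR nOMA
theorem nASE : ASE_stmt := Pool.Agent.NQ.ASE Pool.Agent.DR.All.rTEX Pool.Agent.DR.AllDI.iB13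
theorem nPEX : PEX_stmt := Pool.Agent.NQ.PEX Pool.Agent.DR.All.rCRE Pool.Agent.DR.All.rCFA
  Pool.Agent.DR.All.rCUQ Pool.Agent.DR.All.rTBW Pool.Agent.DR.All.rCCJ Pool.Agent.DR.AllDI.iB2
theorem nINR : INR_stmt := Pool.Agent.NQ.INR Pool.Agent.DR.AllDI.iB13
theorem nRES : RES_stmt := Pool.Agent.NQ.RES nINR
theorem nEIV : EIV_stmt := Pool.Agent.NQ.EIV Pool.Agent.helper58.DC.All.dNM
  Pool.Agent.helper58.DC.All.dIF
theorem nUPW : UPW_stmt := Pool.Agent.NQ.UPW Pool.Agent.DR.AllDI.iD13 Pool.Agent.helper58.DC.All.dRE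
  Pool.Agent.helper58.DC.All.dST Pool.Agent.DR.AllDI.iD6
theorem nPNC : PNC_stmt := Pool.Agent.NQ.PNC
theorem nNZ1 : NZ1_stmt := Pool.Agent.NQ.NZ1
theorem nTWC : TWC_stmt := Pool.Agent.NQ.TWC

theorem nCN0 : CN0_stmt := Pool.Agent.NQ.CN0 Pool.Agent.DR.AllDI.iB2
theorem nPAP : PAP_stmt := Pool.Agent.NQ.PAP Pool.Agent.helper58.DC.All.dNM
  Pool.Agent.helper58.DC.All.dSN Pool.Agent.helper58.DC.All.dIF Pool.Agent.helper58.DC.All.dOM
  Pool.Agent.DR.AllDI.iB2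
theorem nZER : ZER_stmt := Pool.Agent.NQ.ZER Pool.Agent.DR.AllDI.iA13 Pool.Agent.DR.AllDI.iB2
  Pool.Agent.DR.AllDI.iC11 Pool.Agent.DR.AllDI.iC14 Pool.Agent.helper58.DC.All.dTI
  Pool.Agent.helper58.DC.All.dIM Pool.Agent.helper58.DC.All.dIF
theorem nNZA : NZA_stmt := Pool.Agent.NQ.NZA Pool.Agent.DR.All.rGCC
theorem nNZB : NZB_stmt := Pool.Agent.NQ.NZB
theorem nNZC : NZC_stmt := Pool.Agent.NQ.NZC
theorem nNZ2 : NZ2_stmt := Pool.Agent.NQ.NZ2 nNZA nNZB nNZC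
theorem nEXR : EXR_stmt := Pool.Agent.NQ.EXR nGNC nGN1 nPEX nOMA Pool.Agent.DR.All.rTCL
  Pool.Agent.DR.AllDI.iB2
theorem nCNA : CNA_stmt := Pool.Agent.NQ.CNA nCN0 nPEX nINR nGNA Pool.Agent.DR.All.rTIN
  Pool.Agent.DR.AllDI.iB13
theorem nOMC : OMC_stmt := Pool.Agent.NQ.OMC nCN0 nOMA Pool.Agent.DR.AllDI.iB2
theorem nRLU : RLU_stmt := Pool.Agent.NQ.RLU nRES nCNA nCN0 nOMA Pool.Agent.DR.All.rRLBX
  Pool.Agent.DR.All.rRST Pool.Agent.DR.All.rECD Pool.Agent.DR.AllDI.iB13 Pool.Agent.DR.AllDI.iB2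
theorem nSUM : SUM_stmt := Pool.Agent.NQ.SUM nRLU nGEN Pool.Agent.helper58.DC.All.dIF
theorem nBAS : BAS_stmt := Pool.Agent.NQ.BAS nSUM nASE nCN0 nOMC Pool.Agent.DR.All.rRST
  Pool.Agent.DR.All.rPAL Pool.Agent.DR.AllDI.iB13 Pool.Agent.helper58.DC.All.dIF
theorem nTWI : TWI_stmt := Pool.Agent.NQ.TWI nBAS nTWC nUPW Pool.Agent.helper58.DC.All.dRE
  Pool.Agent.DR.All.rPCAX Pool.Agent.DR.All.rGVM Pool.Agent.DR.All.rPMP
theorem nKEY : KEY_stmt := Pool.Agent.NQ.KEY nSUM nASE nCN0 nOMA nTRF nJTP nTOT nEXR nEIV nPAP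
  Pool.Agent.DR.All.rPAL Pool.Agent.DR.All.rRST Pool.Agent.DR.AllDI.iB13
  Pool.Agent.helper58.DC.All.dIF

/-- The first theorem of the project. -/
theorem nFIN : FIN_stmt := Pool.Agent.NQ.FIN nKEY nZER nUPW nPNC nNZ1 nNZ2
  Pool.Agent.DR.AllDI.iD13 Pool.Agent.helper58.DC.All.dRE Pool.Agent.helper58.DC.All.dST
  Pool.Agent.DR.AllDI.iD6 Pool.Agent.DR.All.rPCAX Pool.Agent.DR.All.rZCAX Pool.Agent.DR.All.rGVM
  Pool.Agent.DR.All.rZFN

/-- The second theorem of the project. -/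
theorem nFTW : FTW_stmt := Pool.Agent.NQ.FTW nTWI Pool.Agent.DR.All.main

end Pool.Agent.NQ.All
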